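import Pool.Agent.H46.LT.Clus5

/-!
# The Erdős–Rényi law for Lang–Trotter counts in short intervals, for almost all members of families of elliptic curves

Let `W 0, …, W (r - 1)` be families of Weierstrass equations whose coefficients are polynomials in `n` variables over `ℤ`, and `S` a
condition on the prime `p` and the Frobenius data modulo `p` of the `r` members at the integer point `v` (for instance `a_p = a`).
`freq p` is the proportion of the residues `v` modulo `p` with the condition, `ex y` the sum of `freq p` over the primes `p ≤ y`, the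
expected number of the primes `p ≤ y` with the condition (for `a_p = a` in the family of all curves of the order `√y / log y`), and
`hits a b v` the number of the primes `p` with `a < p ≤ b` that satisfy the condition at `v`.

The law of Erdős and Rényi describes the extreme counts in all intervals `(a, b]` that contain `c log (ex x)` primes on the average: they
are `(α + o(1)) log (ex x)` with the two solutions `α > c` and `α < c` of `rate α c = 1`, where `rate α c = α log (α / c) - α + c`. For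
`c < 1` there is no solution `α < c`, and there are intervals without any such prime.
-/

set_option autoImplicit false

namespace Pool.Agent.Results.MP_d74fca_nt.ErdosRenyiLaw

open Pool.Agent.K4H16.CG
open Pool.Agent.H46.LT (Hit freq ex ex2 hits rate many_upper few_upper exact_lower or_card x_two ex_small)

/-- The law at the point `v`, for the level `α` and the intervals with the expected number `c l` of primes: if `rate α c > 1` then no
count is beyond `α l`, if `rate α c < 1` then some count is beyond `α l`. -/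
def Law {n r : ℕ} (W : Fin r → WeierstrassCurve (MvPolynomial (Fin n) ℤ)) (S : ℕ → (Fin r → Option ℤ) → Prop) (x : ℕ) (c α l : ℝ)
    (v : Fin n → ℤ) : Prop :=
  (c < α → 1 < rate α c → ∀ a b : ℕ, a ≤ b → b ≤ x → ex W S b - ex W S a ≤ c * l → (hits W S a b v : ℝ) < α * l) ∧
  (c < α → rate α c < 1 → ∃ a b : ℕ, a ≤ b ∧ b ≤ x ∧ ex W S b - ex W S a ≤ c * l ∧ α * l ≤ (hits W S a b v : ℝ)) ∧
  (α < c → 1 < rate α c → ∀ a b : ℕ, a ≤ b → b ≤ x → c * l ≤ ex W S b - ex W S a → α * l < (hits W S a b v : ℝ)) ∧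
  (α < c → rate α c < 1 → ∃ a b : ℕ, a ≤ b ∧ b ≤ x ∧ c * l ≤ ex W S b - ex W S a ∧ (hits W S a b v : ℝ) ≤ α * l)

open Classical in
lemma sub_card {α : Type*} (s : Finset α) (L P : α → Prop) (h : ∀ v, P v → L v) :
    ((s.filter (fun v => ¬ L v)).card : ℝ) ≤ ((s.filter (fun v => ¬ P v)).card : ℝ) := by
  have h1 : s.filter (fun v => ¬ L v) ⊆ s.filter (fun v => ¬ P v) := by
    intro v hv
    rw [Finset.mem_filter] at hv ⊢
    exact ⟨hv.1, fun h2 => hv.2 (h v h2)⟩
  exact_mod_cast Finset.card_le_card h1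

open Classical in
lemma triv_card {α : Type*} (s : Finset α) (L : α → Prop) (c : ℝ) (hc : 0 ≤ c) (h : ∀ v, L v) :
    ((s.filter (fun v => ¬ L v)).card : ℝ) ≤ c * s.card := by
  have e : s.filter (fun v => ¬ L v) = ∅ := by
    rw [Finset.filter_eq_empty_iff]
    intro v _ h2
    exact h2 (h v)
  rw [e, Finset.card_empty]
  push_cast
  positivity

open Classical in
lemma core (n : ℕ) (c α : ℝ) (hc : 0 < c) (hα : 0 < α) : ∃ A κ Λ η : ℝ, 1 ≤ A ∧ 0 < κ ∧ 1 ≤ Λ ∧ 0 < η ∧
    ∀ (r : ℕ) (W : Fin r → WeierstrassCurve (MvPolynomial (Fin n) ℤ)) (S : ℕ → (Fin r → Option ℤ) → Prop),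
      (∀ p : ℕ, p.Prime → freq W S p ≤ 1 / 2) → ∀ (x : ℕ) (l : ℝ) (M : Fin n → ℤ) (N : Fin n → ℕ), ex W S x = Real.exp l →
      ex2 W S x ≤ η * Real.exp l → Λ ≤ l → (∀ i, (x : ℝ) ^ (A * l) ≤ N i) →
      (((box M N).filter (fun v => ¬ Law W S x c α l v)).card : ℝ) ≤ Real.exp (-(κ * l)) * (box M N).card := by
  rcases lt_trichotomy (rate α c) 1 with hr | hr | hr
  · obtain ⟨A, κ, Λ, η, hA, hκ, hΛ, hη, H⟩ := exact_lower n c α hc hα hr
    refine ⟨A, κ, max Λ (2 / c), η, hA, hκ, hΛ.trans (le_max_left _ _), hη, ?_⟩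
    intro r W S hq x l M N hV hV2 hl hN
    have hl1 : Λ ≤ l := (le_max_left _ _).trans hl
    have hl0 : 0 < l := by linarith
    have hcl : 2 ≤ c * l := by
      have h : 2 / c ≤ l := (le_max_right _ _).trans hl
      rw [div_le_iff₀ hc] at h
      linarith
    rcases lt_trichotomy c α with hca | hca | hca
    · have hfl : 1 ≤ ⌊c * l⌋₊ := Nat.le_floor (by push_cast; linarith)
      obtain ⟨w, hw⟩ : ∃ w : ℕ, w = ⌊c * l⌋₊ - 1 := ⟨_, rfl⟩
      have hw'' : (w : ℝ) + 1 = (⌊c * l⌋₊ : ℝ) := by exact_mod_cast (show w + 1 = ⌊c * l⌋₊ by omega)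
      have hw1 := Nat.floor_le (show 0 ≤ c * l by positivity)
      have hw2 := Nat.lt_floor_add_one (c * l)
      obtain ⟨m, hm⟩ : ∃ m : ℕ, m = ⌈α * l⌉₊ := ⟨_, rfl⟩
      have hm1 : α * l ≤ m := by rw [hm]; exact Nat.le_ceil _
      have hm2 : (m : ℝ) < α * l + 1 := by rw [hm]; exact Nat.ceil_lt_add_one (by positivity)
      refine le_trans (sub_card (box M N) _ _ ?_) (H r W S hq x l M N hV hV2 hl1 hN w m (by rw [abs_le]; constructor <;> linarith)
        (by rw [abs_le]; constructor <;> linarith))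
      rintro v ⟨a, b, h1, h2, h3, h4, h5⟩
      refine ⟨fun _ h => absurd hr (not_lt.2 h.le), fun _ _ => ⟨a, b, h1, h2, by linarith, ?_⟩, fun h => absurd hca (not_lt.2 h.le),
        fun h => absurd hca (not_lt.2 h.le)⟩
      rw [h5]
      exact hm1
    · refine triv_card (box M N) _ _ (Real.exp_pos _).le ?_
      intro v
      refine ⟨fun h => absurd hca h.ne, fun h => absurd hca h.ne, fun h => absurd hca h.ne', fun h => absurd hca h.ne'⟩
    · obtain ⟨w, hw⟩ : ∃ w : ℕ, w = ⌈c * l⌉₊ + 1 := ⟨_, rfl⟩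
      have hw'' : (w : ℝ) = (⌈c * l⌉₊ : ℝ) + 1 := by exact_mod_cast hw
      have hw1 := Nat.le_ceil (c * l)
      have hw2 := Nat.ceil_lt_add_one (show 0 ≤ c * l by positivity)
      obtain ⟨m, hm⟩ : ∃ m : ℕ, m = ⌊α * l⌋₊ := ⟨_, rfl⟩
      have hm1 : (m : ℝ) ≤ α * l := by rw [hm]; exact Nat.floor_le (by positivity)
      have hm2 : α * l < m + 1 := by rw [hm]; exact Nat.lt_floor_add_one _
      refine le_trans (sub_card (box M N) _ _ ?_) (H r W S hq x l M N hV hV2 hl1 hN w m (by rw [abs_le]; constructor <;> linarith)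
        (by rw [abs_le]; constructor <;> linarith))
      rintro v ⟨a, b, h1, h2, h3, h4, h5⟩
      refine ⟨fun h => absurd hca (not_lt.2 h.le), fun h => absurd hca (not_lt.2 h.le), fun _ h => absurd hr (not_lt.2 h.le),
        fun _ _ => ⟨a, b, h1, h2, by linarith, ?_⟩⟩
      rw [h5]
      exact hm1
  · refine ⟨1, 1, 1, 1, le_rfl, one_pos, le_rfl, one_pos, ?_⟩
    intro r W S hq x l M N hV hV2 hl hN
    refine triv_card (box M N) _ _ (Real.exp_pos _).le ?_
    intro v
    refine ⟨fun _ h => absurd hr h.ne', fun _ h => absurd hr h.ne, fun _ h => absurd hr h.ne', fun _ h => absurd hr h.ne⟩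
  · rcases lt_trichotomy c α with hca | hca | hca
    · obtain ⟨A, κ, Λ, hA, hκ, hΛ, H⟩ := many_upper n c α hc hca hr
      refine ⟨A, κ, Λ, 1, hA, hκ, hΛ, one_pos, ?_⟩
      intro r W S hq x l M N hV hV2 hl hN
      refine le_trans (sub_card (box M N) _ _ ?_) (H r W S hq x l M N hV hl hN)
      intro v hv
      exact ⟨fun _ _ => hv, fun _ h => absurd hr (not_lt.2 h.le), fun h => absurd hca (not_lt.2 h.le), fun h => absurd hca (not_lt.2 h.le)⟩
    · refine ⟨1, 1, 1, 1, le_rfl, one_pos, le_rfl, one_pos, ?_⟩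
      intro r W S hq x l M N hV hV2 hl hN
      refine triv_card (box M N) _ _ (Real.exp_pos _).le ?_
      intro v
      refine ⟨fun h => absurd hca h.ne, fun h => absurd hca h.ne, fun h => absurd hca h.ne', fun h => absurd hca h.ne'⟩
    · obtain ⟨A, κ, Λ, hA, hκ, hΛ, H⟩ := few_upper n c α hα hca hr
      refine ⟨A, κ, Λ, 1, hA, hκ, hΛ, one_pos, ?_⟩
      intro r W S hq x l M N hV hV2 hl hN
      refine le_trans (sub_card (box M N) _ _ ?_) (H r W S hq x l M N hV hl hN)
      intro v hv
      exact ⟨fun h => absurd hca (not_lt.2 h.le), fun h => absurd hca (not_lt.2 h.le), fun _ _ => hv, fun _ h => absurd hr (not_lt.2 h.le)⟩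

open Classical in
/-- **The Erdős–Rényi law for Lang–Trotter counts.** For all `n`, `c > 0` and `α > 0` there are `A`, `κ > 0`, `C₀` and `η > 0` such that
for all families `W` of Weierstrass equations in `n` parameters and all conditions `S` with `freq p ≤ 1 / 2` for all primes `p`, all `x`
with `ex x ≥ C₀` and `∑_{p ≤ x} (freq p) ^ 2 ≤ η ex x`, and all boxes with sides at least `x ^ (A log (ex x))`, at any place, all but a
proportion `(ex x) ^ (-κ)` of the points `v` of the box satisfy with `l = log (ex x)`: if `α > c` and `rate α c > 1`, then ALL intervals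
`(a, b]`, `b ≤ x`, with `ex b - ex a ≤ c l` contain less than `α l` primes with the condition, and if `α > c` and `rate α c < 1`, then
SOME such interval contains at least `α l` of them; if `α < c` and `rate α c > 1`, then ALL intervals `(a, b]`, `b ≤ x`, with
`ex b - ex a ≥ c l` contain more than `α l` of them, and if `α < c` and `rate α c < 1`, then SOME such interval contains at most
`α l`. -/
theorem result (n : ℕ) (c α : ℝ) (hc : 0 < c) (hα : 0 < α) : ∃ A κ C₀ η : ℝ, 0 < A ∧ 0 < κ ∧ 3 ≤ C₀ ∧ 0 < η ∧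
    ∀ (r : ℕ) (W : Fin r → WeierstrassCurve (MvPolynomial (Fin n) ℤ)) (S : ℕ → (Fin r → Option ℤ) → Prop),
      (∀ p : ℕ, p.Prime → freq W S p ≤ 1 / 2) → ∀ (x : ℕ) (M : Fin n → ℤ) (N : Fin n → ℕ), C₀ ≤ ex W S x →
      ex2 W S x ≤ η * ex W S x → (∀ i, (x : ℝ) ^ (A * Real.log (ex W S x)) ≤ N i) →
      (1 - (ex W S x) ^ (-κ)) * (box M N).card ≤
        (((box M N).filter (fun v => Law W S x c α (Real.log (ex W S x)) v)).card : ℝ) := by
  obtain ⟨A, κ, Λ, η, hA, hκ, hΛ, hη, H⟩ := core n c α hc hα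
  refine ⟨A, κ, max 3 (Real.exp Λ), η, by linarith, hκ, le_max_left _ _, hη, ?_⟩
  intro r W S hq x M N hV hV2 hN
  have hV3 : 3 ≤ ex W S x := (le_max_left _ _).trans hV
  have hV0 : 0 < ex W S x := by linarith
  obtain ⟨l, hl⟩ : ∃ l : ℝ, l = Real.log (ex W S x) := ⟨_, rfl⟩
  have hVl : ex W S x = Real.exp l := by rw [hl, Real.exp_log hV0]
  have hl' : Λ ≤ l := by
    rw [hl, Real.le_log_iff_exp_le hV0]
    exact (le_max_right _ _).trans hV
  have e2 : (ex W S x) ^ (-κ) = Real.exp (-(κ * l)) := by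
    rw [Real.rpow_def_of_pos hV0, ← hl]
    congr 1
    ring
  rw [← hl] at hN
  rw [← hl, e2]
  have u1 := H r W S hq x l M N hVl (by rw [← hVl]; exact hV2) hl' hN
  obtain ⟨P, hP⟩ : ∃ P : (Fin n → ℤ) → Prop, P = fun v => Law W S x c α l v := ⟨_, rfl⟩
  have u1' : (((box M N).filter (fun v => ¬ P v)).card : ℝ) ≤ Real.exp (-(κ * l)) * (box M N).card := by
    rw [hP]
    exact u1
  have hsum : (((box M N).filter (fun v => P v)).card : ℝ) + (((box M N).filter (fun v => ¬ P v)).card : ℝ) = (box M N).card := by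
    exact_mod_cast Finset.card_filter_add_card_filter_not (s := box M N) (fun v => P v)
  have hgoal : (1 - Real.exp (-(κ * l))) * (box M N).card ≤ (((box M N).filter (fun v => P v)).card : ℝ) := by
    have e : (1 - Real.exp (-(κ * l))) * ((box M N).card : ℝ) = (box M N).card - Real.exp (-(κ * l)) * (box M N).card := by ring
    rw [e]
    linarith
  rw [hP] at hgoal
  exact hgoal

end Pool.Agent.Results.MP_d74fca_nt.ErdosRenyiLaw
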