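import Pool.Agent.H90.CMT.Norm
import Pool.Agent.H90.CMT.Line
import Pool.Agent.Results.MP_0bf1d2_nt.EveryNLargeModuli
import Pool.Agent.H36.LM.LargeModuliBase

/-!
# The Lang–Trotter question for curves with complex multiplication, modulo large numbers

Let `E` be an elliptic curve over `ℚ` such that the Frobenius endomorphisms at the primes `p` with `a_p ≠ 0`
lie in the imaginary quadratic ring of discriminant `-d`, that is `4 p = a_p² + d n²`. By Deuring this
holds for all curves with complex multiplication; here it is PROVED for all curves `y² = x³ + A x`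
(`d = 4`) and `y² = x³ + B` (`d = 3`). Fix `r ≠ 0`. The Frobenius endomorphism at a prime with `a_p = r` is the
`k_p`-th element of trace `r` of the ring, and `k_p` modulo `q` is its class modulo `q`.

(1) Uniformly in all these curves and all `r`: the primes `p ≤ x` with `a_p = r` (and EVERY set of such primes) are
distributed among the classes of Frobenius modulo `q`, `q` up to a small multiple of the expected order
`≍ √x / log x` of their number, as the distribution modulo `gcd(q, P)`, `P` bounded, predicts, in mean square.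

(2) For each curve and `r` the asymptotic formula of Lang and Trotter in all fixed classes of Frobenius is
equivalent to the mean square law for moduli up to `δ √x / log x`, and to the mean square law at one
arbitrarily slowly growing scale.

No unproved hypothesis is made.
-/

set_option autoImplicit false

namespace Pool.Agent.Results.MP_d74fca_nt.FrobeniusLargeModuli

open Filter Topology

section Definitions

/-- The number of the points modulo `p` of an integral Weierstrass equation, except the point at infinity. -/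
noncomputable def points (W : WeierstrassCurve ℤ) (p : ℕ) : ℕ :=
  Nat.card {xy : ZMod p × ZMod p // (W.map (Int.castRingHom (ZMod p))).toAffine.Equation xy.1 xy.2}

/-- The trace of Frobenius `a_p = p + 1 - #E(𝔽_p)`. -/
noncomputable def trace (W : WeierstrassCurve ℤ) (p : ℕ) : ℤ := (p : ℤ) - points W p

/-- The primes `p` with `a_p = r` which do not divide the discriminant. -/
def primesWithTrace (W : WeierstrassCurve ℤ) (r : ℤ) : Set ℕ :=
  {p : ℕ | p.Prime ∧ ¬ (p : ℤ) ∣ W.Δ ∧ trace W p = r}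

/-- The Frobenius endomorphisms `(a_p ± n √-d) / 2` at the primes with `a_p ≠ 0` lie in the imaginary quadratic
ring of discriminant `-d`: `4 p = a_p² + d n²`. -/
def FrobeniusIn (d : ℕ) (W : WeierstrassCurve ℤ) : Prop :=
  ∀ p : ℕ, p.Prime → ¬ (p : ℤ) ∣ W.Δ → trace W p ≠ 0 →
    ∃ n : ℕ, 4 * (p : ℤ) = trace W p ^ 2 + d * (n : ℤ) ^ 2

/-- The norm `(r² + d n²) / 4` of the `k`-th element `(r + n √-d) / 2` of trace `r`: `n = k` if `4 ∣ d`,
and otherwise `n = 2 k` or `2 k - 1`, with the parity of `r`. -/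
def norm (d : ℕ) (r : ℤ) (k : ℕ) : ℤ := (r ^ 2 + d * (if 4 ∣ d then (k : ℤ) else 2 * k - r % 2) ^ 2) / 4

/-- `-d` is the discriminant of an imaginary quadratic ring, `r ≠ 0` is a trace, and the norms of the elements
of trace `r` have no common prime divisor. -/
structure Admissible (d : ℕ) (r : ℤ) : Prop where
  nonzero : r ≠ 0
  discriminant : d % 4 = 3 ∨ (d % 4 = 0 ∧ 0 < d ∧ 2 ∣ r)
  noFixedPrime : ∀ l : ℕ, l.Prime → ∃ k : ℕ, ¬ (l : ℤ) ∣ norm d r k

/-- The index `k_p` of the Frobenius endomorphism at `p`: `k_p ≥ 1` and `norm d r k_p = p`. -/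
noncomputable def index (d : ℕ) (r : ℤ) (p : ℕ) : ℕ := sInf {k : ℕ | 1 ≤ k ∧ norm d r k = p}

/-- The number of the `p ∈ S` with `p ≤ x` and `k_p ≡ a` modulo `q`. -/
noncomputable def count (d : ℕ) (r : ℤ) (S : Set ℕ) (x q a : ℕ) : ℝ :=
  (Set.ncard {p : ℕ | p ∈ S ∧ p ≤ x ∧ index d r p ≡ a [MOD q]} : ℝ)

/-- The number of the elements `k ≥ 1` of norm at most `x`. -/
noncomputable def length (d : ℕ) (r : ℤ) (x : ℕ) : ℕ := Set.ncard {k : ℕ | 1 ≤ k ∧ norm d r k ≤ x}

/-- The number of the residues `k` modulo `l` with `norm d r k ≡ 0`. -/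
noncomputable def omega (d : ℕ) (r : ℤ) (l : ℕ) : ℕ := Set.ncard {k : ℕ | k < l ∧ (l : ℤ) ∣ norm d r k}

/-- `N ∏_{l ≤ N} (1 - ω(l) / l)` for `N = length d r x`. -/
noncomputable def expected (d : ℕ) (r : ℤ) (x : ℕ) : ℝ :=
  length d r x * ∏ l ∈ (Finset.Icc 1 (length d r x)).filter Nat.Prime, (1 - (omega d r l : ℝ) / l)

/-- The sum over all classes to all moduli `Q ≤ q < 2 Q` of the squares of the differences of the number of
the `p ∈ S` with `k_p` in the class modulo `q` and the proportion `g / q` of the number of those in the class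
modulo `g = gcd(q, P)`. -/
noncomputable def relative (d : ℕ) (r : ℤ) (S : Set ℕ) (x P Q : ℕ) : ℝ :=
  ∑ q ∈ Finset.Ico Q (2 * Q), ∑ a ∈ Finset.range q,
    (count d r S x q a - (Nat.gcd q P / q : ℝ) * count d r S x (Nat.gcd q P) a) ^ 2

/-- `√x / log x`. -/
noncomputable def size (x : ℕ) : ℝ := √(x : ℝ) / Real.log x

/-- The same for the differences to `(g / q) c(g, a) √x / log x`. -/
noncomputable def deviation (d : ℕ) (r : ℤ) (S : Set ℕ) (c : ℕ → ℕ → ℝ) (x P Q : ℕ) : ℝ :=
  ∑ q ∈ Finset.Ico Q (2 * Q), ∑ a ∈ Finset.range q,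
    (count d r S x q a - (Nat.gcd q P / q : ℝ) * (c (Nat.gcd q P) (a % Nat.gcd q P) * size x)) ^ 2

/-- The numbers `c(q, a)`, `0 ≤ a < q`, are consistent: `c(q, a)` is the sum of `c(q', a')` over the
classes `a'` modulo the multiple `q'` of `q` in the class `a` modulo `q`. -/
def Consistent (c : ℕ → ℕ → ℝ) : Prop :=
  ∀ q q' a : ℕ, 1 ≤ q' → q ∣ q' → a < q →
    c q a = ∑ b ∈ (Finset.range q').filter (fun b => b ≡ a [MOD q]), c q' b

variable (d : ℕ) (r : ℤ) (S : Set ℕ) (c : ℕ → ℕ → ℝ)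

/-- (i) The formula `(c(q, a) + o(1)) √x / log x` in every fixed class of Frobenius. -/
def Fixed : Prop :=
  ∀ q a : ℕ, 1 ≤ q → a < q → Tendsto (fun x : ℕ => count d r S x q a / size x) atTop (𝓝 (c q a))

/-- (ii) The mean square law for all moduli up to `δ √x / log x`. -/
def Large : Prop :=
  ∀ ε : ℝ, 0 < ε → ∃ (P₀ : ℕ) (δ : ℝ), 1 ≤ P₀ ∧ 0 < δ ∧ ∀ P : ℕ, 1 ≤ P → P₀ ∣ P → ∀ᶠ x : ℕ in atTop,
    ∀ Q : ℕ, 1 ≤ Q → (Q : ℝ) ≤ δ * size x → deviation d r S c x P Q ≤ ε * size x ^ 2

/-- (iii) The mean square law for one scale `Q(x)`, which tends to infinity with `x`. -/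
def OneScale : Prop :=
  ∃ Q : ℕ → ℕ, Tendsto Q atTop atTop ∧ ∀ ε : ℝ, 0 < ε → ∃ P₀ : ℕ, 1 ≤ P₀ ∧ ∀ P : ℕ, 1 ≤ P → P₀ ∣ P →
    ∀ᶠ x : ℕ in atTop, deviation d r S c x P (Q x) ≤ ε * size x ^ 2

end Definitions

/-! ### proofs -/

section Proofs

open Finset Polynomial Pool.Agent.H90.CMT

theorem norm_eq (d : ℕ) (r : ℤ) (k : ℕ) : norm d r k = nrm d r k := rfl

theorem Admissible.dis {d : ℕ} {r : ℤ} (h : Admissible d r) : Dis d r := h.discriminant

theorem four (A : ℤ) : FrobeniusIn 4 ⟨0, 0, 0, A, 0⟩ := by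
  intro p hp hΔ ht
  obtain ⟨n, hn⟩ := norm_four A hp hΔ ht
  exact ⟨n, hn⟩

theorem three (B : ℤ) : FrobeniusIn 3 ⟨0, 0, 0, 0, B⟩ := by
  intro p hp hΔ ht
  obtain ⟨n, hn⟩ := norm_three B hp hΔ ht
  exact ⟨n, hn⟩

theorem exists_index {d : ℕ} {r : ℤ} (h : Admissible d r) {W : WeierstrassCurve ℤ} (hW : FrobeniusIn d W)
    {p : ℕ} (hp : p ∈ primesWithTrace W r) : ∃! k : ℕ, 1 ≤ k ∧ norm d r k = p := by
  obtain ⟨h1, h2, h3⟩ := hp
  obtain ⟨n, hn⟩ := hW p h1 h2 (by rw [h3]; exact h.nonzero)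
  rw [h3] at hn
  obtain ⟨k, hk, hk2⟩ := exists_nrm h.dis h1 hn
  refine ⟨k, ⟨hk, hk2⟩, ?_⟩
  rintro l ⟨hl, hl2⟩
  apply nrm_inj h.dis hl hk
  rw [hk2]
  exact hl2

theorem index_spec {d : ℕ} {r : ℤ} (h : Admissible d r) {W : WeierstrassCurve ℤ} (hW : FrobeniusIn d W)
    {p : ℕ} (hp : p ∈ primesWithTrace W r) : 1 ≤ index d r p ∧ norm d r (index d r p) = p := by
  obtain ⟨k, hk, -⟩ := exists_index h hW hp
  exact Nat.sInf_mem (s := {k : ℕ | 1 ≤ k ∧ norm d r k = p}) ⟨k, hk⟩

theorem index_norm {d : ℕ} {r : ℤ} (h : Admissible d r) {k p : ℕ} (hk : 1 ≤ k) (hkp : norm d r k = p) :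
    index d r p = k := by
  have h1 := Nat.sInf_mem (s := {k : ℕ | 1 ≤ k ∧ norm d r k = p}) ⟨k, hk, hkp⟩
  apply nrm_inj h.dis h1.1 hk
  have h2 : norm d r (index d r p) = p := h1.2
  rw [← norm_eq, ← norm_eq, hkp]
  exact h2

/-- the elements of norm at most `x` are the first ones -/
theorem length_spec {d : ℕ} {r : ℤ} (h : Dis d r) (x : ℕ) {k : ℕ} (hk : 1 ≤ k) :
    norm d r k ≤ x ↔ k ≤ length d r x := by
  classical
  have hfin : {k : ℕ | 1 ≤ k ∧ norm d r k ≤ x}.Finite := by
    apply (Set.finite_Iic (4 * x)).subset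
    rintro l ⟨hl, hl2⟩
    rw [Set.mem_Iic]
    have h1 := nrm_ge h hl
    have h2 : nrm d r l ≤ x := hl2
    have h3 : (1 : ℤ) ≤ l := by exact_mod_cast hl
    have h4 : (l : ℤ) ≤ 4 * x := by nlinarith
    exact_mod_cast h4
  set A : Finset ℕ := hfin.toFinset with hA
  have hAm : ∀ n, n ∈ A ↔ (1 ≤ n ∧ norm d r n ≤ x) := by
    intro n
    rw [hA, Set.Finite.mem_toFinset]
    exact Iff.rfl
  have hX : length d r x = A.card := by
    unfold length
    rw [hA, Set.ncard_eq_toFinset_card _ hfin]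
  rw [hX]
  constructor
  · intro hn
    have h1 : Icc 1 k ⊆ A := by
      intro m hm
      rw [mem_Icc] at hm
      rw [hAm]
      exact ⟨hm.1, ((nrm_le_iff h hm.1 hk).2 hm.2).trans hn⟩
    have := card_le_card h1
    simpa using this
  · intro h2
    by_contra hcon
    have h1 : A ⊆ Icc 1 (k - 1) := by
      intro m hm
      rw [hAm] at hm
      rw [mem_Icc]
      refine ⟨hm.1, ?_⟩
      by_contra hc
      have h5 : k ≤ m := by omega
      exact hcon (((nrm_le_iff h hk hm.1).2 h5).trans hm.2)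
    have := card_le_card h1
    rw [Nat.card_Icc] at this
    omega

/-- the system of one polynomial -/
noncomputable def sysp (d : ℕ) (r : ℤ) : Fin 1 → ℤ[X] := fun _ => pol d r

/-- the set of the indices of `S` -/
def idx (d : ℕ) (r : ℤ) (S : Set ℕ) : Set ℕ := {k | (norm d r k).toNat ∈ S}

theorem idx_sub {d : ℕ} {r : ℤ} (h : Dis d r) {S : Set ℕ} (hS : ∀ p ∈ S, p.Prime) (k : ℕ) (hk : k ∈ idx d r S)
    (i : Fin 1) : ((sysp d r i).eval (k : ℤ)).natAbs.Prime := by
  have h1 := hS _ hk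
  unfold sysp
  rw [eval_pol h]
  have h2 := nrm_nonneg h k
  have h3 : (nrm d r k).natAbs = (norm d r k).toNat := by
    rw [norm_eq]
    omega
  rw [h3]
  exact h1

theorem count_eq {d : ℕ} {r : ℤ} (h : Admissible d r) {W : WeierstrassCurve ℤ} (hW : FrobeniusIn d W)
    {S : Set ℕ} (hS : S ⊆ primesWithTrace W r) (x q a : ℕ) :
    count d r S x q a = (Set.ncard {n : ℕ | n ∈ idx d r S ∧ 1 ≤ n ∧ n ≤ length d r x ∧ n ≡ a [MOD q]} : ℝ) := by
  unfold count
  norm_cast
  symm
  apply Set.ncard_congr (fun k _ => (norm d r k).toNat)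
  · rintro k ⟨h1, h2, h3, h4⟩
    have h5 := nrm_nonneg h.dis k
    rw [← norm_eq] at h5
    have h6 : norm d r k = ((norm d r k).toNat : ℕ) := (Int.toNat_of_nonneg h5).symm
    refine ⟨h1, ?_, ?_⟩
    · have h7 := (length_spec h.dis x h2).2 h3
      omega
    · rw [index_norm h h2 h6]
      exact h4
  · rintro k l ⟨h1, h2, h3, h4⟩ ⟨g1, g2, g3, g4⟩ hkl
    apply nrm_inj h.dis h2 g2
    have h5 := nrm_nonneg h.dis k
    have h6 := nrm_nonneg h.dis l
    have h7 : (norm d r k).toNat = (norm d r l).toNat := hkl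
    rw [norm_eq, norm_eq] at h7
    omega
  · rintro p ⟨h1, h2, h3⟩
    obtain ⟨h4, h5⟩ := index_spec h hW (hS h1)
    refine ⟨index d r p, ⟨?_, h4, ?_, h3⟩, ?_⟩
    · show (norm d r (index d r p)).toNat ∈ S
      rw [h5]
      simpa using h1
    · rw [← length_spec h.dis x h4, h5]
      exact_mod_cast h2
    · rw [h5]
      simp

theorem count_eq1 {d : ℕ} {r : ℤ} (h : Admissible d r) {W : WeierstrassCurve ℤ} (hW : FrobeniusIn d W)
    {S : Set ℕ} (hS : S ⊆ primesWithTrace W r) (x q a : ℕ) : count d r S x q a =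
      Pool.Agent.Results.MP_0bf1d2_nt.EveryNLargeModuli.count (idx d r S) (length d r x) q a :=
  count_eq h hW hS x q a

theorem count_eq2 {d : ℕ} {r : ℤ} (h : Admissible d r) {W : WeierstrassCurve ℤ} (hW : FrobeniusIn d W)
    {S : Set ℕ} (hS : S ⊆ primesWithTrace W r) (x q a : ℕ) : count d r S x q a =
      Pool.Agent.H36.LM.LargeModuliBase.count (idx d r S) (length d r x) q a :=
  count_eq h hW hS x q a

theorem omega_eq {d : ℕ} {r : ℤ} (h : Dis d r) (l : ℕ) :
    omega d r l = Pool.Agent.Results.MP_0bf1d2_nt.EveryNLargeModuli.omega (sysp d r) l := by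
  unfold omega Pool.Agent.Results.MP_0bf1d2_nt.EveryNLargeModuli.omega sysp
  congr 1
  ext n
  simp only [Set.mem_ofPred_eq, eval_pol h, norm_eq, exists_const]

theorem expected_eq {d : ℕ} {r : ℤ} (h : Dis d r) (x : ℕ) : expected d r x =
    Pool.Agent.Results.MP_0bf1d2_nt.EveryNLargeModuli.expected (sysp d r) (length d r x) := by
  unfold expected Pool.Agent.Results.MP_0bf1d2_nt.EveryNLargeModuli.expected
  congr 1
  apply prod_congr rfl
  intro p _
  rw [omega_eq h]

/-- part (1) -/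
theorem part_one (ε : ℝ) (hε : 0 < ε) : ∃ (P₀ N₀ : ℕ) (δ : ℝ), 1 ≤ P₀ ∧ 0 < δ ∧
    ∀ (d : ℕ) (r : ℤ), Admissible d r → ∀ W : WeierstrassCurve ℤ, FrobeniusIn d W →
      ∀ S : Set ℕ, S ⊆ primesWithTrace W r → ∀ x : ℕ, N₀ ≤ length d r x → ∀ P : ℕ, 1 ≤ P → P₀ ∣ P →
        ∀ Q : ℕ, 1 ≤ Q → (Q : ℝ) ≤ δ * expected d r x → relative d r S x P Q ≤ ε * expected d r x ^ 2 := by
  obtain ⟨P₀, x₀, δ, hP₀, _, hδ, hmain⟩ :=
    Pool.Agent.Results.MP_0bf1d2_nt.EveryNLargeModuli.rel 2 (by norm_num) ε hε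
  refine ⟨P₀, x₀, δ, hP₀, hδ, ?_⟩
  intro d r h W hW S hS x hx P hP hPP Q hQ hQx
  rw [expected_eq h.dis] at hQx ⊢
  have h1 := hmain 1 (sysp d r) (fun i => by unfold sysp; rw [pol_natDegree h.dis]; norm_num)
    (by unfold sysp; simp [pol_natDegree h.dis])
    (fun p hp => by
      obtain ⟨k, hk⟩ := h.noFixedPrime p hp
      refine ⟨k, fun i => ?_⟩
      unfold sysp
      rw [eval_pol h.dis]
      exact hk)
    (idx d r S) (fun k hk i => idx_sub h.dis (fun p hp => (hS hp).1) k hk i) (length d r x) hx P hP hPP Q hQ hQx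
  refine le_trans (le_of_eq ?_) h1
  unfold relative Pool.Agent.Results.MP_0bf1d2_nt.EveryNLargeModuli.relative
  apply sum_congr rfl
  intro q _
  apply sum_congr rfl
  intro a _
  rw [count_eq1 h hW hS, count_eq1 h hW hS]

theorem length_bounds {d : ℕ} {r : ℤ} (h : Dis d r) : ∀ᶠ x : ℕ in atTop,
    √(x : ℝ) / (4 * d) ≤ length d r x ∧ (length d r x : ℝ) ≤ 2 * √(x : ℝ) := by
  have hd3 := dis_pos h
  have hd : (0 : ℝ) < d := by exact_mod_cast (by omega : 0 < d)
  have hd1 : (1 : ℝ) ≤ d := by exact_mod_cast (by omega : 1 ≤ d)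
  have hs : Tendsto (fun x : ℕ => √(x : ℝ)) atTop atTop :=
    Real.tendsto_sqrt_atTop.comp tendsto_natCast_atTop_atTop
  filter_upwards [hs.eventually_ge_atTop (4 * (d : ℝ)), (tendsto_natCast_atTop_atTop (R := ℝ)).eventually_ge_atTop
    (2 * (r : ℝ) ^ 2), eventually_ge_atTop 1] with x h1 h2 h3
  have hx0 : (0 : ℝ) < x := by exact_mod_cast (by omega : 0 < x)
  constructor
  · have h4 : ¬ norm d r (length d r x + 1) ≤ x := by
      rw [length_spec h x (by omega)]
      omega
    have h5 := nrm_le h (k := length d r x + 1) (by omega)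
    have h6 : (x : ℤ) < r ^ 2 + d * ((length d r x + 1 : ℕ) : ℤ) ^ 2 := by
      rw [norm_eq] at h4
      omega
    have h7 : (x : ℝ) < (r : ℝ) ^ 2 + d * ((length d r x : ℝ) + 1) ^ 2 := by exact_mod_cast h6
    have h8 : (x : ℝ) / 2 ≤ d * ((length d r x : ℝ) + 1) ^ 2 := by linarith
    have h9 : √(x : ℝ) / (2 * d) ≤ (length d r x : ℝ) + 1 := by
      apply le_of_sq_le_sq _ (by positivity)
      rw [div_pow, Real.sq_sqrt hx0.le, div_le_iff₀ (by positivity)]
      nlinarith [mul_le_mul_of_nonneg_left h8 hd.le, sq_nonneg ((length d r x : ℝ) + 1)]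
    have h10 : √(x : ℝ) / (2 * d) = √(x : ℝ) / (4 * d) + √(x : ℝ) / (4 * d) := by field_simp; ring
    have h11 : 1 ≤ √(x : ℝ) / (4 * d) := by rw [le_div_iff₀ (by positivity)]; linarith
    linarith
  · rcases Nat.eq_zero_or_pos (length d r x) with h4 | h4
    · rw [h4]
      simp
    · have h5 := (length_spec h x h4).2 le_rfl
      have h6 := nrm_ge h h4
      rw [norm_eq] at h5
      have h7 : 3 * ((length d r x : ℕ) : ℤ) ^ 2 ≤ 4 * x := by linarith
      have h8 : 3 * (length d r x : ℝ) ^ 2 ≤ 4 * x := by exact_mod_cast h7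
      apply le_of_sq_le_sq _ (by positivity)
      rw [mul_pow, Real.sq_sqrt hx0.le]
      nlinarith

theorem length_tendsto {d : ℕ} {r : ℤ} (h : Dis d r) : Tendsto (fun x => length d r x) atTop atTop := by
  have hd : (0 : ℝ) < d := by exact_mod_cast (by have := dis_pos h; omega : 0 < d)
  have hs : Tendsto (fun x : ℕ => √(x : ℝ) / (4 * d)) atTop atTop :=
    (Real.tendsto_sqrt_atTop.comp tendsto_natCast_atTop_atTop).atTop_div_const (by positivity)
  have h1 : Tendsto (fun x => (length d r x : ℝ)) atTop atTop :=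
    tendsto_atTop_mono' _ ((length_bounds h).mono fun x hx => hx.1) hs
  exact tendsto_natCast_atTop_iff.1 h1

theorem size_tendsto : Tendsto size atTop atTop := by
  have h1 : Tendsto (fun x : ℝ => Real.log x / x ^ (1 / 2 : ℝ)) atTop (𝓝 0) :=
    (isLittleO_log_rpow_atTop (by norm_num : (0 : ℝ) < 1 / 2)).tendsto_div_nhds_zero
  have h2 : Tendsto (fun x : ℝ => Real.log x / x ^ (1 / 2 : ℝ)) atTop (𝓝[>] 0) := by
    rw [tendsto_nhdsWithin_iff]
    refine ⟨h1, ?_⟩
    filter_upwards [eventually_gt_atTop 1] with x hx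
    rw [Set.mem_Ioi]
    exact div_pos (Real.log_pos hx) (Real.rpow_pos_of_pos (by linarith) _)
  have h3 : Tendsto (fun x : ℝ => (Real.log x / x ^ (1 / 2 : ℝ))⁻¹) atTop atTop := tendsto_inv_nhdsGT_zero.comp h2
  have h4 : Tendsto (fun x : ℕ => (Real.log (x : ℝ) / (x : ℝ) ^ (1 / 2 : ℝ))⁻¹) atTop atTop :=
    h3.comp tendsto_natCast_atTop_atTop
  refine h4.congr fun x => ?_
  unfold size
  rw [inv_div, Real.sqrt_eq_rpow]

theorem size_bounds {d : ℕ} {r : ℤ} (h : Dis d r) : ∀ᶠ x : ℕ in atTop,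
    1 / (4 * d) * size x ≤ Pool.Agent.H36.LM.LargeModuliBase.size 1 (length d r x) ∧
    Pool.Agent.H36.LM.LargeModuliBase.size 1 (length d r x) ≤ 8 * size x := by
  have hd : (0 : ℝ) < d := by exact_mod_cast (by have := dis_pos h; omega : 0 < d)
  have hlog : Tendsto (fun x : ℕ => Real.log (x : ℝ)) atTop atTop :=
    Real.tendsto_log_atTop.comp tendsto_natCast_atTop_atTop
  filter_upwards [length_bounds h, (length_tendsto h).eventually_ge_atTop 2, eventually_ge_atTop 4,
    hlog.eventually_ge_atTop (4 * Real.log (4 * d))] with x h1 h2 h3 h4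
  obtain ⟨h5, h6⟩ := h1
  set L : ℝ := (length d r x : ℝ) with hL
  have hL2 : (2 : ℝ) ≤ L := by rw [hL]; exact_mod_cast h2
  have hx4 : (4 : ℝ) ≤ x := by exact_mod_cast h3
  have hx0 : (0 : ℝ) < x := by linarith
  have hlx : 0 < Real.log x := Real.log_pos (by linarith)
  have hlL : 0 < Real.log L := Real.log_pos (by linarith)
  have hsx : 0 < √(x : ℝ) := Real.sqrt_pos.2 hx0
  unfold Pool.Agent.H36.LM.LargeModuliBase.size size
  rw [pow_one, ← hL]
  constructor
  · have h7 : Real.log L ≤ Real.log x := by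
      apply Real.log_le_log (by linarith)
      refine h6.trans ?_
      have h8 : (2 : ℝ) ≤ √(x : ℝ) := by
        apply Real.le_sqrt_of_sq_le
        linarith
      calc 2 * √(x : ℝ) ≤ √(x : ℝ) * √(x : ℝ) := mul_le_mul_of_nonneg_right h8 hsx.le
        _ = x := Real.mul_self_sqrt hx0.le
    calc 1 / (4 * (d : ℝ)) * (√(x : ℝ) / Real.log x) = (√(x : ℝ) / (4 * d)) / Real.log x := by ring
      _ ≤ L / Real.log x := div_le_div_of_nonneg_right h5 hlx.le
      _ ≤ L / Real.log L := div_le_div_of_nonneg_left (by linarith) hlL h7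
  · have h7 : Real.log x / 4 ≤ Real.log L := by
      have h8 : Real.log (√(x : ℝ) / (4 * d)) ≤ Real.log L := Real.log_le_log (by positivity) h5
      rw [Real.log_div (by positivity) (by positivity), Real.log_sqrt hx0.le] at h8
      linarith
    calc L / Real.log L ≤ L / (Real.log x / 4) := div_le_div_of_nonneg_left (by linarith) (by positivity) h7
      _ ≤ (2 * √(x : ℝ)) / (Real.log x / 4) := div_le_div_of_nonneg_right h6 (by positivity)
      _ = 8 * (√(x : ℝ) / Real.log x) := by field_simp; ring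

theorem adm_sysp {d : ℕ} {r : ℤ} (h : Admissible d r) :
    Pool.Agent.H36.LM.LargeModuliBase.Admissible (sysp d r) where
  irreducible := fun _ => pol_irreducible h.dis h.nonzero h.noFixedPrime
  degree := fun _ => by
    show 0 < (pol d r).natDegree
    rw [pol_natDegree h.dis]
    norm_num
  leading := fun _ => by
    show 0 < (pol d r).leadingCoeff
    rw [pol_leading h.dis]
    exact cA_pos h.dis
  distinct := Function.injective_of_subsingleton _
  noFixedPrime := fun p hp => by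
    obtain ⟨k, hk⟩ := h.noFixedPrime p hp
    refine ⟨k, fun i => ?_⟩
    unfold sysp
    rw [eval_pol h.dis]
    exact hk

/-- the mean square law, in terms of `√x / log x` -/
theorem rel_size {d : ℕ} {r : ℤ} (h : Admissible d r) {W : WeierstrassCurve ℤ} (hW : FrobeniusIn d W)
    {S : Set ℕ} (hS : S ⊆ primesWithTrace W r) (ε : ℝ) (hε : 0 < ε) :
    ∃ (P₀ : ℕ) (δ : ℝ), 1 ≤ P₀ ∧ 0 < δ ∧ ∀ᶠ x : ℕ in atTop, ∀ P : ℕ, 1 ≤ P → P₀ ∣ P →
      ∀ Q : ℕ, 1 ≤ Q → (Q : ℝ) ≤ δ * size x → Pool.Agent.H90.SK.relT (count d r S x) P Q ≤ ε * size x ^ 2 := by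
  obtain ⟨P₀, δ, hP₀, hδ, hev⟩ :=
    Pool.Agent.H36.LM.LargeModuliBase.rel (adm_sysp h) (ε / 64) (by positivity)
  have hd : (0 : ℝ) < d := by exact_mod_cast (by have := dis_pos h.dis; omega : 0 < d)
  refine ⟨P₀, δ * (1 / (4 * d)), hP₀, by positivity, ?_⟩
  filter_upwards [(length_tendsto h.dis).eventually hev, size_bounds h.dis,
    size_tendsto.eventually_ge_atTop 0] with x h1 h2 h3 P hP hPP Q hQ hQx
  have h4 := h1 (idx d r S) (fun k hk i => idx_sub h.dis (fun p hp => (hS hp).1) k hk i) P hP hPP Q hQ (by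
    refine hQx.trans ?_
    rw [mul_assoc]
    exact mul_le_mul_of_nonneg_left h2.1 hδ.le)
  have h5 : Pool.Agent.H90.SK.relT (count d r S x) P Q =
      Pool.Agent.H36.LM.LargeModuliBase.relative (idx d r S) (length d r x) P Q := by
    unfold Pool.Agent.H90.SK.relT Pool.Agent.H36.LM.LargeModuliBase.relative
    apply sum_congr rfl
    intro q _
    apply sum_congr rfl
    intro a _
    rw [count_eq2 h hW hS, count_eq2 h hW hS]
  rw [h5]
  refine h4.trans ?_
  have h6 : (0 : ℝ) ≤ Pool.Agent.H36.LM.LargeModuliBase.size 1 (length d r x) :=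
    le_trans (by positivity) h2.1
  have h7 : Pool.Agent.H36.LM.LargeModuliBase.size 1 (length d r x) ^ 2 ≤ (8 * size x) ^ 2 :=
    pow_le_pow_left₀ h6 h2.2 2
  calc ε / 64 * Pool.Agent.H36.LM.LargeModuliBase.size 1 (length d r x) ^ 2 ≤ ε / 64 * (8 * size x) ^ 2 :=
        mul_le_mul_of_nonneg_left h7 (by positivity)
    _ = ε * size x ^ 2 := by ring

theorem count_mod (d : ℕ) (r : ℤ) (S : Set ℕ) (x g a : ℕ) : count d r S x g a = count d r S x g (a % g) := by
  unfold count
  have : ∀ n : ℕ, n ≡ a [MOD g] ↔ n ≡ a % g [MOD g] := fun n =>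
    ⟨fun h => h.trans (Nat.mod_modEq a g).symm, fun h => h.trans (Nat.mod_modEq a g)⟩
  simp only [this]

theorem adm_four {r : ℤ} (hr : r ≠ 0) (h2 : 2 ∣ r) : Admissible 4 r where
  nonzero := hr
  discriminant := Or.inr ⟨rfl, by norm_num, h2⟩
  noFixedPrime := by
    intro l hl
    have hd : Dis 4 r := Or.inr ⟨rfl, by norm_num, h2⟩
    by_contra hcon
    push Not at hcon
    have h0 := hcon 0
    have h1 := hcon 1
    rw [norm_eq] at h0 h1
    have e0 := four_nrm hd 0
    have e1 := four_nrm hd 1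
    have g0 : hgt 4 r 0 = 0 := by unfold hgt; rw [if_pos (dvd_refl 4)]; rfl
    have g1 : hgt 4 r 1 = 1 := by unfold hgt; rw [if_pos (dvd_refl 4)]; rfl
    rw [g0] at e0
    rw [g1] at e1
    have h3 : (l : ℤ) ∣ nrm 4 r 1 - nrm 4 r 0 := dvd_sub h1 h0
    have h4 : nrm 4 r 1 - nrm 4 r 0 = 1 := by
      push_cast at e0 e1
      omega
    rw [h4] at h3
    have h5 : l ∣ 1 := by exact_mod_cast h3
    exact hl.one_lt.ne' (Nat.dvd_one.1 h5)

theorem adm_three {r : ℤ} (h3 : ¬ 3 ∣ r) : Admissible 3 r where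
  nonzero := by
    rintro rfl
    exact h3 (dvd_zero 3)
  discriminant := Or.inl rfl
  noFixedPrime := by
    intro l hl
    have hd : Dis 3 r := Or.inl rfl
    by_contra hcon
    push Not at hcon
    have h0 := hcon 0
    have h1 := hcon 1
    have h2 := hcon 2
    rw [norm_eq] at h0 h1 h2
    have e0 := four_nrm hd 0
    have e1 := four_nrm hd 1
    have e2 := four_nrm hd 2
    have n4 : ¬ 4 ∣ 3 := by norm_num
    have g0 : hgt 3 r 0 = -(r % 2) := by unfold hgt; rw [if_neg n4]; push_cast; ring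
    have g1 : hgt 3 r 1 = 2 - r % 2 := by unfold hgt; rw [if_neg n4]; push_cast; ring
    have g2 : hgt 3 r 2 = 4 - r % 2 := by unfold hgt; rw [if_neg n4]; push_cast; ring
    rw [g0] at e0
    rw [g1] at e1
    rw [g2] at e2
    push_cast at e0 e1 e2
    by_cases hl3 : l = 3
    · rw [hl3] at h0
      have h5 : (3 : ℤ) ∣ r ^ 2 := by
        obtain ⟨m, hm⟩ := h0
        push_cast at hm
        refine ⟨4 * m - (-(r % 2)) ^ 2, ?_⟩
        rw [hm] at e0
        linarith
      exact h3 (Int.prime_three.dvd_of_dvd_pow h5)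
    · rcases Int.emod_two_eq_zero_or_one r with h6 | h6
      · rw [h6] at e0 e1
        have h7 : (l : ℤ) ∣ nrm 3 r 1 - nrm 3 r 0 := dvd_sub h1 h0
        have h8 : nrm 3 r 1 - nrm 3 r 0 = 3 := by
          norm_num at e0 e1
          omega
        rw [h8] at h7
        have h9 : l ∣ 3 := by exact_mod_cast h7
        exact hl3 ((Nat.prime_dvd_prime_iff_eq hl Nat.prime_three).1 h9)
      · rw [h6] at e0 e2
        have h7 : (l : ℤ) ∣ nrm 3 r 2 - nrm 3 r 0 := dvd_sub h2 h0
        have h8 : nrm 3 r 2 - nrm 3 r 0 = 6 := by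
          norm_num at e0 e2
          omega
        rw [h8] at h7
        have h9 : l ∣ 2 * 3 := by exact_mod_cast h7
        rcases (Nat.Prime.dvd_mul hl).1 h9 with h10 | h10
        · have hl2 := (Nat.prime_dvd_prime_iff_eq hl Nat.prime_two).1 h10
          rw [hl2] at h0
          obtain ⟨m, hm⟩ := h0
          obtain ⟨s, hs⟩ : ∃ s : ℤ, r = 2 * s + 1 := ⟨r / 2, by omega⟩
          obtain ⟨u, hu⟩ := Int.even_mul_succ_self s
          push_cast at hm
          rw [hm, hs] at e0
          have e3 : 8 * m = 4 * (s * (s + 1)) + 4 := by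
            norm_num at e0
            linarith
          rw [hu] at e3
          omega
        · exact hl3 ((Nat.prime_dvd_prime_iff_eq hl Nat.prime_three).1 h10)

theorem fixed_iff (d : ℕ) (r : ℤ) (S : Set ℕ) (c : ℕ → ℕ → ℝ) : Fixed d r S c ↔
    ∀ q a : ℕ, 1 ≤ q → a < q →
      Tendsto (fun x => (count d r S x q a - c q a * size x) / size x) atTop (𝓝 0) := by
  unfold Fixed
  apply forall_congr'
  intro q
  apply forall_congr'
  intro a
  apply imp_congr_right
  intro _
  apply imp_congr_right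
  intro _
  have h1 : (fun x => (count d r S x q a - c q a * size x) / size x) =ᶠ[atTop]
      fun x => count d r S x q a / size x - c q a := by
    filter_upwards [size_tendsto.eventually_gt_atTop 0] with x hx
    rw [sub_div, mul_div_assoc, div_self hx.ne', mul_one]
  rw [tendsto_congr' h1]
  constructor
  · intro h2
    simpa using h2.sub_const (c q a)
  · intro h2
    simpa using h2.add_const (c q a)

end Proofs

/-- **The Lang–Trotter question for curves with complex multiplication, modulo large numbers.**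

(0) The curves `y² = x³ + A x` and `y² = x³ + B` have Frobenius endomorphisms in the rings of discriminants
`-4` and `-3`; all `r ≠ 0` with `2 ∣ r`, respectively all `r` with `3 ∤ r`, are admissible (for the other `r ≠ 0` at
most one prime has `a_p = r`). If this holds for `W` with `-d`, then each prime with `a_p = r` is the norm of exactly one `k`-th
element, `k = k_p ≥ 1`, of trace `r`.

(1) For all `ε > 0` there are `P₀`, `N₀` and `δ > 0` such that for ALL these `d`, `W` and traces `r`, EVERY set `S` of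
primes with `a_p = r`, every `x` for which at least `N₀` of the elements have norm at most `x`, every multiple `P` of
`P₀` and all `1 ≤ Q ≤ δ E`, `E = N ∏_{l ≤ N} (1 - ω(l) / l)`, `N` the number of these elements, the sum over
`Q ≤ q < 2 Q` and all `a` modulo `q` of the squares of `#S(x; q, a) - (g / q) #S(x; g, a)`, `g = gcd(q, P)`, is at most
`ε E²`.

(2) For each `d`, `W`, `r` and `S` (for instance the set of ALL primes with `a_p = r`) and all consistent numbers
`c(q, a)` (for instance those of Lang and Trotter) the following are equivalent: (i) the formula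
`#S(x; q, a) ~ c(q, a) √x / log x` in all fixed classes of Frobenius; (ii) the mean square law for the moduli up to
`δ √x / log x`; (iii) the mean square law at one scale `Q(x)` which tends to infinity. -/
theorem result :
    ((∀ A : ℤ, FrobeniusIn 4 ⟨0, 0, 0, A, 0⟩) ∧ (∀ r : ℤ, r ≠ 0 → 2 ∣ r → Admissible 4 r) ∧
      (∀ B : ℤ, FrobeniusIn 3 ⟨0, 0, 0, 0, B⟩) ∧ (∀ r : ℤ, ¬ 3 ∣ r → Admissible 3 r) ∧
      ∀ (d : ℕ) (r : ℤ), Admissible d r → ∀ W : WeierstrassCurve ℤ, FrobeniusIn d W →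
        ∀ p ∈ primesWithTrace W r, ∃! k : ℕ, 1 ≤ k ∧ norm d r k = p) ∧
    (∀ ε : ℝ, 0 < ε → ∃ (P₀ N₀ : ℕ) (δ : ℝ), 1 ≤ P₀ ∧ 0 < δ ∧
      ∀ (d : ℕ) (r : ℤ), Admissible d r → ∀ W : WeierstrassCurve ℤ, FrobeniusIn d W →
        ∀ S : Set ℕ, S ⊆ primesWithTrace W r → ∀ x : ℕ, N₀ ≤ length d r x → ∀ P : ℕ, 1 ≤ P → P₀ ∣ P →
          ∀ Q : ℕ, 1 ≤ Q → (Q : ℝ) ≤ δ * expected d r x → relative d r S x P Q ≤ ε * expected d r x ^ 2) ∧
    ∀ (d : ℕ) (r : ℤ), Admissible d r → ∀ W : WeierstrassCurve ℤ, FrobeniusIn d W →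
      ∀ S : Set ℕ, S ⊆ primesWithTrace W r → ∀ c : ℕ → ℕ → ℝ, Consistent c →
        List.TFAE [Fixed d r S c, Large d r S c, OneScale d r S c] := by
  refine ⟨⟨four, fun r hr h2 => adm_four hr h2, three, fun r h3 => adm_three h3, fun d r h W hW p hp => exists_index h hW hp⟩, part_one, ?_⟩
  intro d r h W hW S hS c hc
  have hmod : ∀ x g a, count d r S x g a = count d r S x g (a % g) := count_mod d r S
  have hsplit : ∀ x q₀ q a₀, q₀ ∣ q → 1 ≤ q → count d r S x q₀ a₀ =
      ∑ a ∈ (Finset.range q).filter (fun a => a ≡ a₀ [MOD q₀]), count d r S x q a := by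
    intro x q₀ q a₀ h1 h2
    rw [count_eq1 h hW hS, Pool.Agent.Results.MP_0bf1d2_nt.EveryNLargeModuli.count_split h1 h2]
    apply Finset.sum_congr rfl
    intro a _
    rw [count_eq1 h hW hS]
  have hmn : ∀ (x q₀ q a₀ : ℕ), 1 ≤ q → q₀ ∣ q → a₀ < q₀ →
      c q₀ a₀ * size x = ∑ b ∈ (Finset.range q).filter (fun b => b ≡ a₀ [MOD q₀]), c q b * size x := by
    intro x q₀ q a₀ h1 h2 h3
    rw [hc q₀ q a₀ h1 h2 h3, Finset.sum_mul]
  tfae_have 1 → 2 := fun h1 => Pool.Agent.H90.SK.tf_large (cnt := fun x => count d r S x)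
    (mn := fun x q a => c q a * size x) size_tendsto hmod (fun ε hε => rel_size h hW hS ε hε) ((fixed_iff d r S c).1 h1)
  tfae_have 2 → 3 := fun h1 => Pool.Agent.H90.SK.tf_one (cnt := fun x => count d r S x)
    (mn := fun x q a => c q a * size x) size_tendsto h1
  tfae_have 3 → 1 := fun h1 => (fixed_iff d r S c).2 (Pool.Agent.H90.SK.tf_fixed (cnt := fun x => count d r S x)
    (mn := fun x q a => c q a * size x) size_tendsto hsplit hmn h1)
  tfae_finish

end Pool.Agent.Results.MP_d74fca_nt.FrobeniusLargeModuli
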