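import Pool.Agent.H90.LT.Law
import Pool.Agent.H92L.Cnt

/-!
# The Lang–Trotter formula in the classes of the Frobenius to large moduli, for almost all traces

The elliptic curves `W` over `ℚ` with complex multiplication by an order of `ℚ(i)` are the curves with `j = 1728` or
`j = 287496`. For a trace `r = 2 a` the primes `p` with `a_p(W) = ± r` are of the form `p = z z̄`, with a Gaussian integer
`z = a + m i`, in certain classes modulo a fixed number `Q`. There is one set `E` of integers, with at most `R / (log R) ^ A`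
elements `|r| ≤ R` for every `A` and all large `R`, such that for every single `r` outside `E` with `|r|` large the Frobenius
elements `z = a + m i` are distributed among ALL the residue classes of `m` modulo `q` as the formula of Lang and Trotter in
classes predicts, in mean square over the classes and the moduli `K ≤ q < 2 K`, for all `K` as large as a small multiple of
the number of these primes itself, and all `x` from `|r| ^ (2 + ρ)` to `|r| ^ (3 - ρ)`. This is true for finitely many curves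
at the same time and with conditions on the class of the Frobenius modulo `Q`.

Proof. For the fixed moduli the formula follows from the theorem of helper92 (`Pool.Agent.H92L.univ`, on which the hand-in
`GaussianMultiplication` is based; the theorem of Fouvry and Iwaniec in classes and for almost all `a`, of the library).
From there the large moduli are reached by the large sieve for the `m` such that `a² + m²` has no small prime factors,
uniformly in `a` (the hand-in `EveryNLargeModuli` of MP_0bf1d2_nt, for arbitrary polynomials with arbitrary coefficients).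
-/

set_option autoImplicit false

namespace Pool.Agent.Results.MP_d74fca_nt.GaussianLargeModuli

open Finset Filter Topology

/-- The number of the solutions `(x, y)` of the equation of `W` modulo `p`. -/
def points (W : WeierstrassCurve ℤ) (p : ℕ) : ℕ :=
  ((range p ×ˢ range p).filter (fun t : ℕ × ℕ => (p : ℤ) ∣
    (t.2 : ℤ) ^ 2 + W.a₁ * t.1 * t.2 + W.a₃ * t.2 - ((t.1 : ℤ) ^ 3 + W.a₂ * (t.1 : ℤ) ^ 2 + W.a₄ * t.1 + W.a₆))).card

/-- The trace `a_p(W) = p + 1 - |W(𝔽_p)|`, for primes `p` that do not divide the discriminant. -/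
def trace (W : WeierstrassCurve ℤ) (p : ℕ) : ℤ := (p : ℤ) - points W p

/-- `W` is an elliptic curve with complex multiplication by `ℤ[i]` or `ℤ[2i]`: the discriminant is not zero and the
`j`-invariant `c₄³ / Δ` is `1728` or `287496`. -/
def HasMultiplication (W : WeierstrassCurve ℤ) : Prop :=
  W.Δ ≠ 0 ∧ (W.c₄ ^ 3 = 1728 * W.Δ ∨ W.c₄ ^ 3 = 287496 * W.Δ)

/-- `η` is a multiplicative function on `ℤ[i]`, periodic modulo `Q`, zero at the elements that are not coprime to `Q` and a
unit at the others, `η(z̄)` is the conjugate of `η(z)`, and `η(z) z` is the Frobenius: `a_p(W) = 2 Re (η(z) z)` for all primes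
`p = z z̄` that do not divide `Q`; and `a_p(W) = 0` for the primes `p ≡ 3 (mod 4)` that do not divide `Q`. -/
structure IsHecke (W : WeierstrassCurve ℤ) (Q : ℕ) (η : GaussianInt →* GaussianInt) : Prop where
  periodic : ∀ a b : GaussianInt, (Q : GaussianInt) ∣ a - b → η a = η b
  zero : ∀ a : GaussianInt, ¬ IsCoprime a (Q : GaussianInt) → η a = 0
  unit : ∀ a : GaussianInt, IsCoprime a (Q : GaussianInt) → (η a).norm = 1
  conj : ∀ a : GaussianInt, η (star a) = star (η a)
  split : ∀ (p : ℕ) (z : GaussianInt), p.Prime → ¬ p ∣ Q → z.norm = p → trace W p = 2 * (η z * z).re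
  inert : ∀ p : ℕ, p.Prime → ¬ p ∣ Q → p % 4 = 3 → trace W p = 0

/-- `P` depends on the class modulo `Q` and is invariant under the conjugation of `ℤ[i]`. -/
def IsClass (Q : ℕ) (P : GaussianInt → Prop) : Prop :=
  (∀ a b : GaussianInt, (Q : GaussianInt) ∣ a - b → P a → P b) ∧ ∀ a : GaussianInt, P a → P (star a)

/-- The number of the Gaussian integers `z` of trace `z + z̄ = r`, the norm of which is a prime `p ≤ x`, not a divisor of `Q`,
with `a_p(W i) = e i * r` for all `i`, such that `z` has the property `P` and the imaginary part of `z` is `b` modulo `q`.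
(Every such prime `p` belongs to exactly two such `z`, `z` and `z̄`, of the classes `b` and `-b`.) -/
noncomputable def count {k : ℕ} (W : Fin (k + 1) → WeierstrassCurve ℤ) (e : Fin (k + 1) → ℤ) (P : GaussianInt → Prop)
    (Q : ℕ) (r : ℤ) (x : ℝ) (q b : ℕ) : ℕ :=
  Set.ncard {z : GaussianInt | 2 * z.re = r ∧
    (∃ p : ℕ, p.Prime ∧ z.norm = p ∧ (p : ℝ) ≤ x ∧ ¬ p ∣ Q ∧ ∀ i, trace (W i) p = e i * r) ∧ P z ∧ (q : ℤ) ∣ z.im - b}

open Classical in
/-- For even `r` the number of the classes `m` modulo `Q q` with `m ≡ b` modulo `q` such that `z = r / 2 + m i` satisfies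
`η j z = e j` for all `j`, has the property `P` and a norm coprime to `q`; for odd `r` it is `0`. -/
noncomputable def classes {k : ℕ} (η : Fin (k + 1) → (GaussianInt →* GaussianInt)) (e : Fin (k + 1) → ℤ)
    (P : GaussianInt → Prop) (Q : ℕ) (r : ℤ) (q b : ℕ) : ℕ :=
  ((range (Q * q)).filter (fun m : ℕ => r % 2 = 0 ∧ (q : ℤ) ∣ (m : ℤ) - b ∧ (∀ i, η i ⟨r / 2, m⟩ = (e i : GaussianInt)) ∧
    P ⟨r / 2, m⟩ ∧ IsCoprime ((r / 2) ^ 2 + (m : ℤ) ^ 2) (q : ℤ))).card

/-- The partial products over the primes `3 ≤ p ≤ z` which do not divide `Q r`. -/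
noncomputable def product (Q : ℕ) (r : ℤ) (z : ℕ) : ℝ :=
  ∏ p ∈ (Icc 3 z).filter (fun p : ℕ => p.Prime ∧ ¬ (p : ℤ) ∣ Q * r),
    (1 - ((ZMod.χ₄ (p : ZMod 4) : ℤ) : ℝ) / ((p : ℝ) - 1))

/-- `∫_2^√x dt / log t` -/
noncomputable def li (x : ℝ) : ℝ := ∫ t in (2 : ℝ)..(Real.sqrt x), 1 / Real.log t

/-- The law of Lang and Trotter for the trace `r` in all classes to large moduli: there are numbers `C(q, b) ≥ 0`, the
limits of the partial products times the number of the classes divided by `φ(Q q)`, and with the main term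
`M = C(1, 0) li x` the sum over `K ≤ q < 2 K` and over ALL `b` modulo `q` of the squares of `count - C(q, b) li x` is at most
`ε M²`, for all real `x` from `|r| ^ (2 + ρ)` to `|r| ^ (3 - ρ)` and all `1 ≤ K ≤ δ M`. -/
def Law {k : ℕ} (W : Fin (k + 1) → WeierstrassCurve ℤ) (η : Fin (k + 1) → (GaussianInt →* GaussianInt))
    (e : Fin (k + 1) → ℤ) (P : GaussianInt → Prop) (Q : ℕ) (ρ ε δ : ℝ) (r : ℤ) : Prop :=
  ∃ C : ℕ → ℕ → ℝ, (∀ q b : ℕ, 1 ≤ q → 0 ≤ C q b ∧ (0 < C q b ↔ 0 < classes η e P Q r q b) ∧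
      Tendsto (fun z => (classes η e P Q r q b : ℝ) / (Nat.totient (Q * q) : ℝ) * product (Q * q) r z) atTop
        (𝓝 (C q b))) ∧
    ∀ x : ℝ, |(r : ℝ)| ^ (2 + ρ) ≤ x → x ≤ |(r : ℝ)| ^ (3 - ρ) → ∀ K : ℕ, 1 ≤ K → (K : ℝ) ≤ δ * (C 1 0 * li x) →
      ∑ q ∈ Ico K (2 * K), ∑ b ∈ range q, ((count W e P Q r x q b : ℝ) - C q b * li x) ^ 2 ≤ ε * (C 1 0 * li x) ^ 2

/-- The number of the elements `r` of `E` with `|r| ≤ R`. -/
noncomputable def number (E : Set ℤ) (R : ℝ) : ℕ := {r : ℤ | r ∈ E ∧ |(r : ℝ)| ≤ R}.ncard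

open Pool.Agent.H92L Pool.Agent.H90.LT Pool.Agent.N782.GN
open Pool.Agent.H304R2.EC.A1 (norm_def' re_mul' im_mul')

theorem trace_eq (W : WeierstrassCurve ℤ) (p : ℕ) : trace W p = Pool.Agent.H92L.trace W p := rfl

theorem hecke {W : WeierstrassCurve ℤ} (hW : HasMultiplication W) {Q : ℕ} (hQ : 216 * W.c₄ ∣ Q) :
    ∃ η : GaussianInt →* GaussianInt, IsHecke W Q η := by
  obtain ⟨η, h⟩ := exists_hecke (W := W) hW hQ
  exact ⟨η, h.per, h.zero, h.unit, h.conj, h.split, h.inert⟩

variable {k : ℕ} {W : Fin (k + 1) → WeierstrassCurve ℤ} {η : Fin (k + 1) → (GaussianInt →* GaussianInt)}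
  {e : Fin (k + 1) → ℤ} {P : GaussianInt → Prop} {Q : ℕ}

theorem data (h1 : ∀ i, HasMultiplication (W i)) (h2 : 1 ≤ Q) (h3 : ∀ i, 216 * (W i).c₄ ∣ Q)
    (h4 : ∀ i, IsHecke (W i) Q (η i)) : Dt W η Q :=
  ⟨h1, h3, fun i => ⟨(h4 i).periodic, (h4 i).zero, (h4 i).unit, (h4 i).conj, (h4 i).split, (h4 i).inert⟩, h2⟩

theorem product_eq (N : ℕ) (a : ℤ) : product N (2 * a) = pp (N * a) := by
  funext z
  unfold product
  rw [pp_eq]
  unfold fc
  refine prod_congr ?_ (fun _ _ => rfl)
  apply filter_congr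
  intro p hp
  rw [mem_Icc] at hp
  apply and_congr_right
  intro hpp
  apply not_congr
  have hpz : Prime (p : ℤ) := Nat.prime_iff_prime_int.1 hpp
  constructor
  · intro h
    have e1 : (N : ℤ) * (2 * a) = 2 * (N * a) := by ring
    rw [e1] at h
    rcases hpz.dvd_or_dvd h with h | h
    · exfalso
      have h5 : p ∣ 2 := by exact_mod_cast h
      have := Nat.le_of_dvd (by norm_num) h5
      omega
    · exact h
  · intro h
    have e1 : (N : ℤ) * (2 * a) = 2 * (N * a) := by ring
    rw [e1]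
    exact h.mul_left 2

theorem classes_eq (a : ℤ) (q b : ℕ) :
    classes η e P Q (2 * a) q b = Pool.Agent.H90.LT.kap Q (GG η e P) a q b := by
  classical
  have h1 : (2 * a) / 2 = a := by omega
  have h2 : (2 * a) % 2 = 0 := by omega
  unfold classes Pool.Agent.H90.LT.kap
  rw [h1]
  congr 1
  ext m
  simp only [mem_filter]
  unfold GG
  tauto

theorem classes_zero (r : ℤ) (hr : r % 2 = 1) (q b : ℕ) : classes η e P Q r q b = 0 := by
  classical
  unfold classes
  rw [card_eq_zero, filter_eq_empty_iff]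
  rintro m - ⟨h, -⟩
  omega

/-- the Gaussian integers and the integers `m` -/
theorem count_eq (hD : Dt W η Q) (he : ∀ i, e i = 1 ∨ e i = -1) (a : ℤ) (x : ℝ) (q b : ℕ) :
    (count W e P Q (2 * a) x q b : ℝ) = NN (GG η e P) a x q (b : ℕ) := by
  unfold count NN
  rw [Nat.cast_inj]
  have hset : {z : GaussianInt | 2 * z.re = 2 * a ∧
      (∃ p : ℕ, p.Prime ∧ z.norm = p ∧ (p : ℝ) ≤ x ∧ ¬ p ∣ Q ∧ ∀ i, trace (W i) p = e i * (2 * a)) ∧ P z ∧
        (q : ℤ) ∣ z.im - b} =
      (fun m : ℤ => (⟨a, m⟩ : GaussianInt)) '' {m : ℤ | (a ^ 2 + m ^ 2).natAbs.Prime ∧ ((a ^ 2 + m ^ 2 : ℤ) : ℝ) ≤ x ∧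
        GG η e P a m ∧ (q : ℤ) ∣ m - (b : ℕ)} := by
    ext z
    simp only [Set.mem_ofPred_eq, Set.mem_image]
    constructor
    · rintro ⟨h1, ⟨p, hp, hn, hpx, hpQ, ht⟩, hPz, hq⟩
      have hre : z.re = a := by omega
      have hz : (⟨a, z.im⟩ : GaussianInt) = z := by
        apply Zsqrtd.ext
        · exact hre.symm
        · rfl
      have hsum : a ^ 2 + z.im ^ 2 = (p : ℤ) := by
        rw [← hn, norm_def', hre]
      have hp2 : p ≠ 2 := by
        rintro rfl
        exact hpQ hD.two
      refine ⟨z.im, ⟨?_, ?_, ⟨fun i => ?_, ?_⟩, hq⟩, hz⟩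
      · rw [hsum, Int.natAbs_natCast]
        exact hp
      · rw [hsum]
        exact_mod_cast hpx
      · have hn' : (⟨a, z.im⟩ : GaussianInt).norm = p := by rw [hz]; exact hn
        have h5 := (hD.hk i).split p _ hp hpQ hn'
        have h6 := ht i
        rw [trace_eq, h5] at h6
        exact unit_re hp hp2 hsum (hD.hs.unit i _ (cop_z hp hpQ hn')) (he i) (by linarith)
      · rw [hz]
        exact hPz
    · rintro ⟨m, ⟨hp, hx, hG, hq⟩, rfl⟩
      have hn : (⟨a, m⟩ : GaussianInt).norm = ((a ^ 2 + m ^ 2).natAbs : ℕ) := by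
        rw [norm_def', Int.natCast_natAbs, abs_of_nonneg (by positivity)]
      have hpQ : ¬ (a ^ 2 + m ^ 2).natAbs ∣ Q := by
        intro hd
        have hc : IsCoprime (⟨a, m⟩ : GaussianInt) (Q : GaussianInt) := by
          by_contra hc
          have h2 := hD.hs.zero 0 _ hc
          rw [hG.1 0] at h2
          have h3 : e 0 = 0 := by exact_mod_cast h2
          rcases he 0 with h | h <;> rw [h] at h3 <;> norm_num at h3
        have h1 := cop_down hc
        have h2 : (((a ^ 2 + m ^ 2).natAbs : ℕ) : ℤ) ∣ (Q : ℤ) := Int.natCast_dvd_natCast.2 hd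
        have h3 : (((a ^ 2 + m ^ 2).natAbs : ℕ) : ℤ) ∣ a ^ 2 + m ^ 2 := Int.natAbs_dvd.2 dvd_rfl
        have h4 := Int.isUnit_iff_natAbs_eq.1 (h1.isUnit_of_dvd' h3 h2)
        rw [Int.natAbs_natCast] at h4
        exact hp.one_lt.ne' h4
      refine ⟨rfl, ⟨(a ^ 2 + m ^ 2).natAbs, hp, hn, ?_, hpQ, fun i => ?_⟩, hG.2, hq⟩
      · have e1 : (((a ^ 2 + m ^ 2).natAbs : ℕ) : ℤ) = a ^ 2 + m ^ 2 := by
          rw [Int.natCast_natAbs, abs_of_nonneg (by positivity)]
        have e2 : (((a ^ 2 + m ^ 2).natAbs : ℕ) : ℝ) = ((((a ^ 2 + m ^ 2).natAbs : ℕ) : ℤ) : ℝ) :=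
          (Int.cast_natCast _).symm
        rw [e2, e1]
        exact hx
      · rw [trace_eq, (hD.hk i).split _ ⟨a, m⟩ hp hpQ hn, hG.1 i]
        simp
        ring
  rw [hset]
  exact Set.ncard_image_of_injective _ (fun m m' h => congrArg Zsqrtd.im h)

/-- **The Lang–Trotter formula in the classes of the Frobenius to large moduli, for the elliptic curves over `ℚ` with complex
multiplication by an order of `ℚ(i)` and almost all traces.** There is one set `E` of integers, with at most
`R / (log R) ^ A` elements `|r| ≤ R` for every `A` and all large `R`, such that for any `k + 1` such curves `W i` and every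
positive common multiple `Q` of the numbers `216 c₄(W i)` the following holds. The curves have characters `η i` modulo `Q`
as in `IsHecke`, and for all signs `e i`, all conditions `P` on the class of the Frobenius modulo `Q` and all `ρ, ε > 0`
there is `δ > 0` such that the law for all classes to moduli up to `δ` times the main term holds for all integers `r`
outside `E` with `|r|` sufficiently large. -/
theorem result : ∃ E : Set ℤ,
    (∀ A : ℕ, ∃ R₀ : ℝ, ∀ R : ℝ, R₀ ≤ R → (number E R : ℝ) ≤ R / Real.log R ^ A) ∧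
    ∀ (k : ℕ) (W : Fin (k + 1) → WeierstrassCurve ℤ) (Q : ℕ), 1 ≤ Q →
      (∀ i, HasMultiplication (W i) ∧ 216 * (W i).c₄ ∣ Q) →
      ∃ η : Fin (k + 1) → (GaussianInt →* GaussianInt), (∀ i, IsHecke (W i) Q (η i)) ∧
        ∀ (e : Fin (k + 1) → ℤ) (P : GaussianInt → Prop) (ρ ε : ℝ), (∀ i, e i = 1 ∨ e i = -1) → IsClass Q P →
          0 < ρ → 0 < ε → ∃ δ r₀ : ℝ, 0 < δ ∧ ∀ r : ℤ, r ∉ E → r₀ ≤ |(r : ℝ)| → Law W η e P Q ρ ε δ r := by
  classical
  obtain ⟨E, hE, hU⟩ := univ
  refine ⟨{r : ℤ | ∃ a ∈ E, r = 2 * a}, fun A => ?_, fun k W Q hQ h => ?_⟩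
  · -- the number of the exceptions
    obtain ⟨R₀, hR₀⟩ := hE (A + 1)
    obtain ⟨R₁, hR₁⟩ := eventually_atTop.1 (Pool.Agent.N782.GN.ev_log_pow 1 (2 ^ (A + 1)) one_pos 0)
    refine ⟨max (max (2 * R₀) R₁) 16, fun R hR => ?_⟩
    have hRa : 2 * R₀ ≤ R := ((le_max_left _ _).trans (le_max_left _ _)).trans hR
    have hRb : R₁ ≤ R := ((le_max_right _ _).trans (le_max_left _ _)).trans hR
    have hR16 : 16 ≤ R := (le_max_right _ _).trans hR
    have h1 := hR₀ (R / 2) (by linarith)
    have h2 := hR₁ R hRb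
    rw [zero_add, pow_one, one_mul] at h2
    have hR0 : 0 < R := by linarith
    have hcard : number {r : ℤ | ∃ a ∈ E, r = 2 * a} R ≤ ((Icc ⌈-(R / 2)⌉ ⌊R / 2⌋).filter (fun a => a ∈ E)).card := by
      unfold number
      rw [← Set.ncard_coe_finset]
      have hsub : {r : ℤ | r ∈ {r : ℤ | ∃ a ∈ E, r = 2 * a} ∧ |(r : ℝ)| ≤ R} ⊆
          (fun a : ℤ => 2 * a) '' (((Icc ⌈-(R / 2)⌉ ⌊R / 2⌋).filter (fun a => a ∈ E) : Finset ℤ) : Set ℤ) := by
        rintro r ⟨⟨a, haE, rfl⟩, hr⟩
        refine ⟨a, ?_, rfl⟩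
        rw [coe_filter]
        refine ⟨?_, haE⟩
        rw [mem_Icc, Int.ceil_le, Int.le_floor]
        push_cast at hr
        rw [abs_mul, abs_of_pos (by norm_num : (0 : ℝ) < 2)] at hr
        exact abs_le.1 (by linarith)
      refine (Set.ncard_le_ncard hsub ((Finset.finite_toSet _).image _)).trans ?_
      exact Set.ncard_image_le (Finset.finite_toSet _)
    have hcard' : (number {r : ℤ | ∃ a ∈ E, r = 2 * a} R : ℝ) ≤ R / 2 / Real.log (R / 2) ^ (A + 1) :=
      le_trans (by exact_mod_cast hcard) h1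
    refine hcard'.trans ?_
    have hlogL : Real.log R / 2 ≤ Real.log (R / 2) := by
      have e1 : Real.sqrt R ≤ R / 2 := by
        rw [Real.sqrt_le_left (by positivity)]
        nlinarith
      have e2 := Real.log_le_log (Real.sqrt_pos.2 hR0) e1
      rwa [Real.log_sqrt hR0.le] at e2
    have hlog : 1 ≤ Real.log R := log_ge_one (by linarith)
    have hl2 : 0 < Real.log (R / 2) := by linarith
    rw [div_div, div_le_div_iff₀ (by positivity) (by positivity)]
    have e3 : Real.log R ^ A ≤ 2 * Real.log (R / 2) ^ (A + 1) := by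
      have e4 : (Real.log R / 2) ^ (A + 1) ≤ Real.log (R / 2) ^ (A + 1) := pow_le_pow_left₀ (by positivity) hlogL _
      have e5 : Real.log R ^ A ≤ (Real.log R / 2) ^ (A + 1) := by
        rw [div_pow, le_div_iff₀ (by positivity), pow_succ (Real.log R) A]
        exact mul_le_mul_of_nonneg_left h2 (by positivity)
      have e6 : 0 ≤ Real.log (R / 2) ^ (A + 1) := by positivity
      linarith
    exact mul_le_mul_of_nonneg_left e3 hR0.le
  · choose η hη using fun i => hecke (h i).1 (h i).2
    have hD : Dt W η Q := data (fun i => (h i).1) hQ (fun i => (h i).2) hη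
    refine ⟨η, hη, fun e P ρ ε he hP hρ hε => ?_⟩
    have hG := GG_per hD.hs hD.pos he (P := P) ⟨hP.1, hP.2⟩
    obtain ⟨δ, a₀, hδ, ha₀, hlaw⟩ := law hG hU (ρ := ρ / 2) (by positivity) hε
    obtain ⟨a₁, ha₁⟩ := eventually_atTop.1 (Pool.Agent.N782.GN.ev_rpow_ge (ρ / 2) 8 (by positivity))
    refine ⟨δ, max (2 * a₀) (max (2 * a₁) 4), hδ, fun r hrE hr => ?_⟩
    have hr1 : 2 * a₀ ≤ |(r : ℝ)| := (le_max_left _ _).trans hr
    have hr2 : 2 * a₁ ≤ |(r : ℝ)| := ((le_max_left _ _).trans (le_max_right _ _)).trans hr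
    have hr3 : 4 ≤ |(r : ℝ)| := ((le_max_right _ _).trans (le_max_right _ _)).trans hr
    rcases Int.emod_two_eq_zero_or_one r with hpar | hpar
    · obtain ⟨a, rfl⟩ : ∃ a, r = 2 * a := ⟨r / 2, by omega⟩
      have haE : a ∉ E := fun ha => hrE ⟨a, ha, rfl⟩
      have hra : |((2 * a : ℤ) : ℝ)| = 2 * |(a : ℝ)| := by
        push_cast
        rw [abs_mul, abs_of_pos (by norm_num : (0 : ℝ) < 2)]
      have hb0 : 2 ≤ |(a : ℝ)| := by linarith
      have hane : a ≠ 0 := by
        rintro rfl
        simp at hb0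
        linarith
      refine ⟨fun q b => CC Q (GG η e P) a q (b : ℕ), fun q b hq => ?_, fun x hx1 hx2 K hK hKδ => ?_⟩
      · have hn : ((Q : ℤ) * a * q) ≠ 0 :=
          mul_ne_zero (mul_ne_zero (by exact_mod_cast (by omega : Q ≠ 0)) hane) (by exact_mod_cast (by omega : q ≠ 0))
        obtain ⟨s1, s2⟩ := c_ssl _ hn
        have hφ : (0 : ℝ) < Nat.totient (Q * q) := by
          exact_mod_cast Nat.totient_pos.2 (Nat.mul_pos (by omega) (by omega))
        rw [classes_eq]
        have key0 : 0 ≤ CC Q (GG η e P) a q (b : ℕ) := by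
          unfold CC
          positivity
        have key : 0 < CC Q (GG η e P) a q (b : ℕ) ↔ 0 < Pool.Agent.H90.LT.kap Q (GG η e P) a q b := by
          unfold CC
          constructor
          · intro h0
            by_contra hcon
            have : Pool.Agent.H90.LT.kap Q (GG η e P) a q b = 0 := by omega
            rw [this] at h0
            simp at h0
          · intro h0
            have : (0 : ℝ) < Pool.Agent.H90.LT.kap Q (GG η e P) a q b := by exact_mod_cast h0
            positivity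
        refine ⟨key0, key, ?_⟩
        · rw [product_eq]
          have e1 : ((Q * q : ℕ) : ℤ) * a = (Q : ℤ) * a * q := by push_cast; ring
          rw [e1]
          exact s1.const_mul _
      · have hC1 : CC Q (GG η e P) a 1 ((0 : ℕ) : ℤ) = C0 Q (GG η e P) a := CC_one Q _ a
        have hli : li x = Li x := rfl
        simp only [hC1, hli] at hKδ ⊢
        have hρ2 : ρ ≤ 1 / 2 := by
          have h4 := (hx1.trans hx2)
          have h5 := (Real.rpow_le_rpow_left_iff (show 1 < |((2 * a : ℤ) : ℝ)| by linarith)).1 h4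
          linarith
        have hlow : |(a : ℝ)| ^ (2 + ρ / 2) ≤ x := by
          refine le_trans ?_ hx1
          calc |(a : ℝ)| ^ (2 + ρ / 2) ≤ |((2 * a : ℤ) : ℝ)| ^ (2 + ρ / 2) :=
                Real.rpow_le_rpow (by positivity) (by linarith) (by positivity)
            _ ≤ _ := Real.rpow_le_rpow_of_exponent_le (by linarith) (by linarith)
        have hup : x ≤ |(a : ℝ)| ^ (3 - ρ / 2) := by
          refine hx2.trans ?_
          rw [hra, Real.mul_rpow (by norm_num) (by positivity)]
          have e1 : |(a : ℝ)| ^ (3 - ρ / 2) = |(a : ℝ)| ^ (ρ / 2) * |(a : ℝ)| ^ (3 - ρ) := by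
            rw [← Real.rpow_add (by linarith)]
            congr 1
            ring
          have e2 : (2 : ℝ) ^ (3 - ρ) ≤ 8 := by
            calc (2 : ℝ) ^ (3 - ρ) ≤ (2 : ℝ) ^ (3 : ℝ) := Real.rpow_le_rpow_of_exponent_le (by norm_num) (by linarith)
              _ = 8 := by
                rw [show (3 : ℝ) = ((3 : ℕ) : ℝ) by norm_num, Real.rpow_natCast]
                norm_num
          have e3 := ha₁ |(a : ℝ)| (by linarith)
          rw [e1]
          exact mul_le_mul_of_nonneg_right (e2.trans e3) (by positivity)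
        have hmain := hlaw a haE (by linarith) x hlow hup K hK hKδ
        refine le_trans (le_of_eq ?_) hmain
        apply sum_congr rfl
        intro q _
        apply sum_congr rfl
        intro b _
        rw [count_eq (P := P) hD he a x q b]
    · -- an odd trace
      refine ⟨fun _ _ => 0, fun q b _ => ⟨le_rfl, by rw [classes_zero r hpar]; simp, by
        rw [classes_zero r hpar]; simp⟩, fun x _ _ K hK hKδ => ?_⟩
      exfalso
      have : (1 : ℝ) ≤ K := by exact_mod_cast hK
      rw [zero_mul, mul_zero] at hKδ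
      linarith

end Pool.Agent.Results.MP_d74fca_nt.GaussianLargeModuli
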