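import Pool.Agent.H92L.Univ
import Pool.Agent.H92L.Cnt

/-!
# The Lang–Trotter formula for all the elliptic curves over `ℚ` with complex multiplication by an order of `ℚ(i)`, and
# almost all traces

The elliptic curves over `ℚ` with complex multiplication by an order of `ℚ(i)` are the curves with `j = 1728` (the curves
`y² = x³ - n x`, multiplication by `ℤ[i]`) and with `j = 287496` (multiplication by `ℤ[2i]`). There is one set `E` of
integers, with at most `R / (log R) ^ A` elements `|r| ≤ R` for every `A` and all large `R`, such that for every such curve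
and all traces `r` outside `E` with `|r|` large the number of the primes `p ≤ x` with `a_p = r` is given by the formula of
Lang and Trotter with an explicit constant, for all `x` from `|r| ^ (2 + ε)` to `|r| ^ (3 - ε)`, with an error of at most
`√x / (log x) ^ A`. The same is true for the primes whose Frobenius lies in given classes of `ℤ[i]` modulo a fixed number
(for example the primes in an arithmetic progression, or the primes for which all the `N`-torsion is rational over `𝔽_p`),
and for finitely many curves at the same time: the primes with `a_p(W i) = ± r` for all `i` with given signs.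

The constant is described by the Hecke characters of the curves, `ψ((z)) = η(z) z` for Gaussian integers `z` coprime to `Q`.

Proof. The quartic reciprocity law (library, helper699) and the formula for the quartic symbol of two give the Hecke
characters of all quartic twists; the curves with `j = 287496` are isogenous to curves `y² = x³ - w² x`. So `a_p = r = 2 a`,
`a ≠ 0`, means that `p = a² + m²` with `(a, m)` in certain classes modulo `Q`, where `a` may be even or odd. The primes
`a² + m²` in classes are counted for almost all `a` by the theorem `Pool.Agent.N782.GN.c_mainx` of project GN of the library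
(the theorem of Fouvry and Iwaniec in classes and for thin sets of `a`), which was used there for the curves
`y² = x³ - D² x`. One exceptional set is obtained from the exceptional sets of all the systems of classes by a diagonal
argument.
-/

set_option autoImplicit false

namespace Pool.Agent.Results.MP_d74fca_nt.GaussianMultiplication

open Finset Filter Topology

/-- The number of the solutions `(x, y)` of the equation of `W` modulo `p`. -/
def points (W : WeierstrassCurve ℤ) (p : ℕ) : ℕ :=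
  ((range p ×ˢ range p).filter (fun t : ℕ × ℕ => (p : ℤ) ∣
    (t.2 : ℤ) ^ 2 + W.a₁ * t.1 * t.2 + W.a₃ * t.2 - ((t.1 : ℤ) ^ 3 + W.a₂ * (t.1 : ℤ) ^ 2 + W.a₄ * t.1 + W.a₆))).card

/-- The trace `a_p(W) = p + 1 - |W(𝔽_p)|`, for primes `p` that do not divide the discriminant. -/
def trace (W : WeierstrassCurve ℤ) (p : ℕ) : ℤ := (p : ℤ) - points W p

/-- `W` is an elliptic curve with complex multiplication by `ℤ[i]` or `ℤ[2i]`: the discriminant is not zero and the
`j`-invariant `c₄³ / Δ` is `1728` or `287496`. -/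
def HasMultiplication (W : WeierstrassCurve ℤ) : Prop :=
  W.Δ ≠ 0 ∧ (W.c₄ ^ 3 = 1728 * W.Δ ∨ W.c₄ ^ 3 = 287496 * W.Δ)

/-- `η` is a multiplicative function on `ℤ[i]`, periodic modulo `Q`, zero at the elements that are not coprime to `Q` and a
unit at the others, `η(z̄)` is the conjugate of `η(z)`, and `η(z) z` is the Frobenius: `a_p(W) = 2 Re (η(z) z)` for all primes
`p = z z̄` that do not divide `Q`; and `a_p(W) = 0` for the primes `p ≡ 3 (mod 4)` that do not divide `Q`. -/
structure IsHecke (W : WeierstrassCurve ℤ) (Q : ℕ) (η : GaussianInt →* GaussianInt) : Prop where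
  periodic : ∀ a b : GaussianInt, (Q : GaussianInt) ∣ a - b → η a = η b
  zero : ∀ a : GaussianInt, ¬ IsCoprime a (Q : GaussianInt) → η a = 0
  unit : ∀ a : GaussianInt, IsCoprime a (Q : GaussianInt) → (η a).norm = 1
  conj : ∀ a : GaussianInt, η (star a) = star (η a)
  split : ∀ (p : ℕ) (z : GaussianInt), p.Prime → ¬ p ∣ Q → z.norm = p → trace W p = 2 * (η z * z).re
  inert : ∀ p : ℕ, p.Prime → ¬ p ∣ Q → p % 4 = 3 → trace W p = 0

/-- `P` depends on the class modulo `Q` and is invariant under the conjugation of `ℤ[i]`. -/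
def IsClass (Q : ℕ) (P : GaussianInt → Prop) : Prop :=
  (∀ a b : GaussianInt, (Q : GaussianInt) ∣ a - b → P a → P b) ∧ ∀ a : GaussianInt, P a → P (star a)

open Classical in
/-- The number of the primes `p ≤ x` that do not divide the discriminants of the curves `W i` and have `a_p(W i) = e i * r`
for all `i`, and such that `p = z z̄` with `r = z + z̄` and a Gaussian integer `z` with the property `P`. (`z` is determined up
to conjugation by `p` and `r`; it is the Frobenius endomorphism modulo `p` of the curves `W i` with `e i = 1`. For example `P`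
is a condition on the class of `p = z z̄` modulo a divisor of `Q`.) -/
noncomputable def count {k : ℕ} (W : Fin (k + 1) → WeierstrassCurve ℤ) (e : Fin (k + 1) → ℤ) (P : GaussianInt → Prop)
    (r : ℤ) (x : ℝ) : ℕ :=
  ((Icc 1 ⌊x⌋₊).filter (fun p : ℕ => p.Prime ∧ (∀ i, ¬ (p : ℤ) ∣ (W i).Δ ∧ trace (W i) p = e i * r) ∧
    ∃ z : GaussianInt, z.norm = p ∧ 2 * z.re = r ∧ P z)).card

open Classical in
/-- For even `r` the number of the classes `m` modulo `Q` such that `z = r / 2 + m i` satisfies `η j z = e j` for all `j` and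
has the property `P`; for odd `r` it is `0`. -/
noncomputable def classes {k : ℕ} (η : Fin (k + 1) → (GaussianInt →* GaussianInt)) (e : Fin (k + 1) → ℤ)
    (P : GaussianInt → Prop) (Q : ℕ) (r : ℤ) : ℕ :=
  ((range Q).filter (fun m : ℕ => r % 2 = 0 ∧ (∀ i, η i ⟨r / 2, m⟩ = (e i : GaussianInt)) ∧ P ⟨r / 2, m⟩)).card

/-- The partial products over the primes `3 ≤ p ≤ z` which do not divide `Q r`. -/
noncomputable def product (Q : ℕ) (r : ℤ) (z : ℕ) : ℝ :=
  ∏ p ∈ (Icc 3 z).filter (fun p : ℕ => p.Prime ∧ ¬ (p : ℤ) ∣ Q * r),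
    (1 - ((ZMod.χ₄ (p : ZMod 4) : ℤ) : ℝ) / ((p : ℝ) - 1))

/-- The formula for the trace `r`: there is a number `C ≥ 0`, the limit of the partial products times the number of the
classes divided by `φ(Q)`, which is positive if and only if there is such a class, and
`|count - C ∫_2^√x dt / (2 log t)| ≤ √x / (log x) ^ A` for all real `x` from `|r| ^ (2 + ε)` to `|r| ^ (3 - ε)`. -/
def Formula {k : ℕ} (W : Fin (k + 1) → WeierstrassCurve ℤ) (η : Fin (k + 1) → (GaussianInt →* GaussianInt))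
    (e : Fin (k + 1) → ℤ) (P : GaussianInt → Prop) (Q : ℕ) (ε : ℝ) (A : ℕ) (r : ℤ) : Prop :=
  ∃ C : ℝ, 0 ≤ C ∧ (0 < C ↔ 0 < classes η e P Q r) ∧
    Tendsto (fun z => (classes η e P Q r : ℝ) / (Nat.totient Q : ℝ) * product Q r z) atTop (𝓝 C) ∧
    ∀ x : ℝ, |(r : ℝ)| ^ (2 + ε) ≤ x → x ≤ |(r : ℝ)| ^ (3 - ε) →
      |(count W e P r x : ℝ) - C * ∫ t in (2 : ℝ)..(Real.sqrt x), 1 / (2 * Real.log t)| ≤ Real.sqrt x / Real.log x ^ A

/-- The number of the elements `r` of `E` with `|r| ≤ R`. -/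
noncomputable def number (E : Set ℤ) (R : ℝ) : ℕ := {r : ℤ | r ∈ E ∧ |(r : ℝ)| ≤ R}.ncard

open Pool.Agent.H92L

theorem trace_eq (W : WeierstrassCurve ℤ) (p : ℕ) : trace W p = Pool.Agent.H92L.trace W p := rfl

theorem hecke {W : WeierstrassCurve ℤ} (hW : HasMultiplication W) {Q : ℕ} (hQ : 216 * W.c₄ ∣ Q) :
    ∃ η : GaussianInt →* GaussianInt, IsHecke W Q η := by
  obtain ⟨η, h⟩ := exists_hecke (W := W) hW hQ
  exact ⟨η, h.per, h.zero, h.unit, h.conj, h.split, h.inert⟩

theorem ev_small (Q A : ℕ) : ∃ x₀ : ℝ, ∀ x : ℝ, x₀ ≤ x → 2 ≤ Real.log x ∧ 2 * Q * (Real.log x) ^ A ≤ Real.sqrt x := by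
  have h1 := Pool.Agent.N782.GN.ev_log_rpow (1 / 2) (by norm_num) A (2 * Q)
  have h2 := (Real.tendsto_log_atTop).eventually (eventually_ge_atTop (2 : ℝ))
  obtain ⟨x₀, h⟩ := eventually_atTop.1 (h1.and h2)
  refine ⟨x₀, fun x hx => ⟨(h x hx).2, ?_⟩⟩
  rw [Real.sqrt_eq_rpow]
  exact (h x hx).1

variable {k : ℕ} {W : Fin (k + 1) → WeierstrassCurve ℤ} {η : Fin (k + 1) → (GaussianInt →* GaussianInt)}
  {e : Fin (k + 1) → ℤ} {P : GaussianInt → Prop} {Q : ℕ}

theorem data (h1 : ∀ i, HasMultiplication (W i)) (h2 : 1 ≤ Q) (h3 : ∀ i, 216 * (W i).c₄ ∣ Q)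
    (h4 : ∀ i, IsHecke (W i) Q (η i)) : Dt W η Q :=
  ⟨h1, h3, fun i => ⟨(h4 i).periodic, (h4 i).zero, (h4 i).unit, (h4 i).conj, (h4 i).split, (h4 i).inert⟩, h2⟩

theorem count_eq (r : ℤ) (x : ℝ) : count W e P r x = cnt W e P r x := rfl

theorem classes_eq (r : ℤ) (hr : r % 2 = 0) : classes η e P Q r = (cl Q (GG η e P) (r / 2)).card := by
  classical
  unfold classes cl
  apply congrArg Finset.card
  ext m
  simp only [mem_filter]
  unfold GG
  tauto

theorem classes_zero (r : ℤ) (hr : r % 2 = 1) : classes η e P Q r = 0 := by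
  classical
  unfold classes
  rw [card_eq_zero, filter_eq_empty_iff]
  rintro m - ⟨h, -⟩
  omega

theorem product_eq (a : ℤ) : product Q (2 * a) = prd (Q * a) := by
  funext z
  unfold product prd
  refine prod_congr ?_ (fun _ _ => rfl)
  apply filter_congr
  intro p hp
  rw [mem_Icc] at hp
  apply and_congr_right
  intro hpp
  apply not_congr
  have hpz : Prime (p : ℤ) := Nat.prime_iff_prime_int.1 hpp
  constructor
  · intro h
    have e1 : (Q : ℤ) * (2 * a) = 2 * (Q * a) := by ring
    rw [e1] at h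
    rcases hpz.dvd_or_dvd h with h | h
    · exfalso
      have h5 : p ∣ 2 := by exact_mod_cast h
      have := Nat.le_of_dvd (by norm_num) h5
      omega
    · exact h
  · intro h
    have e1 : (Q : ℤ) * (2 * a) = 2 * (Q * a) := by ring
    rw [e1]
    exact h.mul_left 2

/-- an odd trace -/
theorem formula_odd (hD : Dt W η Q) (he : ∀ i, e i = 1 ∨ e i = -1) {ε : ℝ} (hε : 0 < ε) (A : ℕ) :
    ∃ r₀ : ℝ, ∀ r : ℤ, r % 2 = 1 → r₀ ≤ |(r : ℝ)| → Formula W η e P Q ε A r := by
  obtain ⟨x₀, hx₀⟩ := ev_small Q A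
  refine ⟨max x₀ 1, fun r hr hr0 => ?_⟩
  have h0 := classes_zero (η := η) (e := e) (P := P) (Q := Q) r hr
  refine ⟨0, le_rfl, by rw [h0]; simp, by rw [h0]; simp, fun x hx1 hx2 => ?_⟩
  have hr1 : 1 ≤ |(r : ℝ)| := (le_max_right _ _).trans hr0
  have hr2 : x₀ ≤ |(r : ℝ)| := (le_max_left _ _).trans hr0
  have hx : x₀ ≤ x := by
    refine hr2.trans (le_trans ?_ hx1)
    calc |(r : ℝ)| = |(r : ℝ)| ^ (1 : ℝ) := (Real.rpow_one _).symm
      _ ≤ _ := Real.rpow_le_rpow_of_exponent_le hr1 (by linarith)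
  obtain ⟨h1, h2⟩ := hx₀ x hx
  have h3 : (count W e P r x : ℝ) ≤ Q := by
    rw [count_eq]
    exact_mod_cast cnt_odd hD he hr x
  rw [zero_mul, sub_zero, abs_of_nonneg (Nat.cast_nonneg _), le_div_iff₀ (by positivity)]
  have h4 : (count W e P r x : ℝ) * Real.log x ^ A ≤ Q * Real.log x ^ A :=
    mul_le_mul_of_nonneg_right h3 (by positivity)
  have h5 : 0 ≤ (Q : ℝ) * Real.log x ^ A := by positivity
  linarith

/-- an even trace -/
theorem formula_even (hD : Dt W η Q) (he : ∀ i, e i = 1 ∨ e i = -1) (hP : PC Q P) {E : Set ℤ}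
    (hU : ∀ (q : ℕ) (G : ℤ → ℤ → Prop), Per q G → ∀ (ε : ℝ) (A : ℕ), 0 < ε → ∃ a₀ : ℝ, ∀ a : ℤ, a ∉ E → a₀ ≤ |(a : ℝ)| →
      ∀ x : ℝ, |(a : ℝ)| ^ (2 + ε) ≤ x → x ≤ |(a : ℝ)| ^ (3 - ε) →
        |(piG G a x : ℝ) - cst q G a * ∫ t in (2 : ℝ)..(Real.sqrt x), 1 / (2 * Real.log t)| ≤
          Real.sqrt x / (Real.log x) ^ A) {ε : ℝ} (hε : 0 < ε) (A : ℕ) :
    ∃ r₀ : ℝ, ∀ a : ℤ, a ∉ E → r₀ ≤ |((2 * a : ℤ) : ℝ)| → Formula W η e P Q ε A (2 * a) := by
  have hG := GG_per hD.hs hD.pos he hP
  obtain ⟨a₀, ha₀⟩ := hU Q _ hG (ε / 2) (A + 1) (by positivity)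
  obtain ⟨x₀, hx₀⟩ := ev_small Q A
  obtain ⟨a₁, ha₁⟩ := eventually_atTop.1 (Pool.Agent.N782.GN.ev_rpow_ge (ε / 2) 8 (by positivity))
  refine ⟨max (max (2 * a₀) x₀) (max (2 * a₁) 4), fun a haE hr => ?_⟩
  have hr1 : 2 * a₀ ≤ |((2 * a : ℤ) : ℝ)| := ((le_max_left _ _).trans (le_max_left _ _)).trans hr
  have hr2 : x₀ ≤ |((2 * a : ℤ) : ℝ)| := ((le_max_right _ _).trans (le_max_left _ _)).trans hr
  have hr3 : 2 * a₁ ≤ |((2 * a : ℤ) : ℝ)| := ((le_max_left _ _).trans (le_max_right _ _)).trans hr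
  have hr4 : 4 ≤ |((2 * a : ℤ) : ℝ)| := ((le_max_right _ _).trans (le_max_right _ _)).trans hr
  have hra : |((2 * a : ℤ) : ℝ)| = 2 * |(a : ℝ)| := by
    push_cast
    rw [abs_mul, abs_of_pos (by norm_num : (0 : ℝ) < 2)]
  have hb0 : 2 ≤ |(a : ℝ)| := by linarith
  have ha : a ≠ 0 := by
    rintro rfl
    simp at hb0
    linarith
  obtain ⟨k1, k2, k3⟩ := constant hG ha
  have hcl : classes η e P Q (2 * a) = (cl Q (GG η e P) a).card := by
    rw [classes_eq (2 * a) (by omega)]
    congr 2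
    omega
  refine ⟨cst Q (GG η e P) a, k1, by rw [hcl]; exact k2, ?_, fun x hx1 hx2 => ?_⟩
  · rw [hcl]
    simp_rw [product_eq]
    exact k3
  · have hε2 : ε ≤ 1 / 2 := by
      have h4 := (hx1.trans hx2)
      have h5 := (Real.rpow_le_rpow_left_iff (show 1 < |((2 * a : ℤ) : ℝ)| by linarith)).1 h4
      linarith
    have hx3 : |((2 * a : ℤ) : ℝ)| ≤ x := by
      refine le_trans ?_ hx1
      calc |((2 * a : ℤ) : ℝ)| = |((2 * a : ℤ) : ℝ)| ^ (1 : ℝ) := (Real.rpow_one _).symm
        _ ≤ _ := Real.rpow_le_rpow_of_exponent_le (by linarith) (by linarith)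
    have hx0 : 0 ≤ x := by linarith
    have hlow : |(a : ℝ)| ^ (2 + ε / 2) ≤ x := by
      refine le_trans ?_ hx1
      calc |(a : ℝ)| ^ (2 + ε / 2) ≤ |((2 * a : ℤ) : ℝ)| ^ (2 + ε / 2) :=
            Real.rpow_le_rpow (by positivity) (by linarith) (by positivity)
        _ ≤ _ := Real.rpow_le_rpow_of_exponent_le (by linarith) (by linarith)
    have hup : x ≤ |(a : ℝ)| ^ (3 - ε / 2) := by
      refine hx2.trans ?_
      rw [hra, Real.mul_rpow (by norm_num) (by positivity)]
      have e1 : |(a : ℝ)| ^ (3 - ε / 2) = |(a : ℝ)| ^ (ε / 2) * |(a : ℝ)| ^ (3 - ε) := by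
        rw [← Real.rpow_add (by linarith)]
        congr 1
        ring
      have e2 : (2 : ℝ) ^ (3 - ε) ≤ 8 := by
        calc (2 : ℝ) ^ (3 - ε) ≤ (2 : ℝ) ^ (3 : ℝ) := Real.rpow_le_rpow_of_exponent_le (by norm_num) (by linarith)
          _ = 8 := by
            rw [show (3 : ℝ) = ((3 : ℕ) : ℝ) by norm_num, Real.rpow_natCast]
            norm_num
      have e3 := ha₁ |(a : ℝ)| (by linarith)
      rw [e1]
      exact mul_le_mul_of_nonneg_right (e2.trans e3) (by positivity)
    have hmain := ha₀ a haE (by linarith) x hlow hup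
    obtain ⟨h1, h2⟩ := hx₀ x (hr2.trans hx3)
    obtain ⟨c1, c2⟩ := cnt_even hD he hP ha hx0
    have c1' : (piG (GG η e P) a x : ℝ) ≤ (cnt W e P (2 * a) x : ℝ) := by exact_mod_cast c1
    have c2' : (cnt W e P (2 * a) x : ℝ) ≤ (piG (GG η e P) a x : ℝ) + Q := by exact_mod_cast c2
    rw [count_eq]
    have e4 : Real.sqrt x / Real.log x ^ (A + 1) ≤ 1 / 2 * (Real.sqrt x / Real.log x ^ A) := by
      rw [pow_succ, ← div_div, div_le_iff₀ (by linarith)]
      have : 0 ≤ Real.sqrt x / Real.log x ^ A := by positivity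
      nlinarith
    have e5 : (Q : ℝ) ≤ 1 / 2 * (Real.sqrt x / Real.log x ^ A) := by
      rw [mul_div_assoc', le_div_iff₀ (by positivity)]
      linarith
    rw [abs_le] at hmain ⊢
    constructor
    · linarith [hmain.1]
    · linarith [hmain.2]

/-- **The Lang–Trotter formula for the elliptic curves over `ℚ` with complex multiplication by an order of `ℚ(i)` and
almost all traces.** There is one set `E` of integers, with at most `R / (log R) ^ A` elements `|r| ≤ R` for every `A` and all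
large `R`, such that for any `k + 1` such curves `W i` and every positive common multiple `Q` of the numbers `216 c₄(W i)` the
following holds. The curves have characters `η i` modulo `Q` as in `IsHecke`, and for all signs `e i`, all conditions `P` on
the class of the Frobenius modulo `Q`, all `ε > 0` and all `A` the formula for the number of the primes `p ≤ x` with
`a_p(W i) = e i * r` for all `i` and the condition `P` holds for all integers `r` outside `E` with `|r|` sufficiently
large. -/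
theorem result : ∃ E : Set ℤ,
    (∀ A : ℕ, ∃ R₀ : ℝ, ∀ R : ℝ, R₀ ≤ R → (number E R : ℝ) ≤ R / Real.log R ^ A) ∧
    ∀ (k : ℕ) (W : Fin (k + 1) → WeierstrassCurve ℤ) (Q : ℕ), 1 ≤ Q →
      (∀ i, HasMultiplication (W i) ∧ 216 * (W i).c₄ ∣ Q) →
      ∃ η : Fin (k + 1) → (GaussianInt →* GaussianInt), (∀ i, IsHecke (W i) Q (η i)) ∧
        ∀ (e : Fin (k + 1) → ℤ) (P : GaussianInt → Prop) (ε : ℝ) (A : ℕ), (∀ i, e i = 1 ∨ e i = -1) → IsClass Q P →
          0 < ε → ∃ r₀ : ℝ, ∀ r : ℤ, r ∉ E → r₀ ≤ |(r : ℝ)| → Formula W η e P Q ε A r := by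
  classical
  obtain ⟨E, hE, hU⟩ := univ
  refine ⟨{r : ℤ | ∃ a ∈ E, r = 2 * a}, fun A => ?_, fun k W Q hQ h => ?_⟩
  · -- the number of the exceptions
    obtain ⟨R₀, hR₀⟩ := hE (A + 1)
    obtain ⟨R₁, hR₁⟩ := eventually_atTop.1 (Pool.Agent.N782.GN.ev_log_pow 1 (2 ^ (A + 1)) one_pos 0)
    refine ⟨max (max (2 * R₀) R₁) 16, fun R hR => ?_⟩
    have hRa : 2 * R₀ ≤ R := ((le_max_left _ _).trans (le_max_left _ _)).trans hR
    have hRb : R₁ ≤ R := ((le_max_right _ _).trans (le_max_left _ _)).trans hR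
    have hR16 : 16 ≤ R := (le_max_right _ _).trans hR
    have h1 := hR₀ (R / 2) (by linarith)
    have h2 := hR₁ R hRb
    rw [zero_add, pow_one, one_mul] at h2
    have hR0 : 0 < R := by linarith
    have hcard : number {r : ℤ | ∃ a ∈ E, r = 2 * a} R ≤ ((Icc ⌈-(R / 2)⌉ ⌊R / 2⌋).filter (fun a => a ∈ E)).card := by
      unfold number
      rw [← Set.ncard_coe_finset]
      have hsub : {r : ℤ | r ∈ {r : ℤ | ∃ a ∈ E, r = 2 * a} ∧ |(r : ℝ)| ≤ R} ⊆
          (fun a : ℤ => 2 * a) '' (((Icc ⌈-(R / 2)⌉ ⌊R / 2⌋).filter (fun a => a ∈ E) : Finset ℤ) : Set ℤ) := by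
        rintro r ⟨⟨a, haE, rfl⟩, hr⟩
        refine ⟨a, ?_, rfl⟩
        rw [coe_filter]
        refine ⟨?_, haE⟩
        rw [mem_Icc, Int.ceil_le, Int.le_floor]
        push_cast at hr
        rw [abs_mul, abs_of_pos (by norm_num : (0 : ℝ) < 2)] at hr
        exact abs_le.1 (by linarith)
      refine (Set.ncard_le_ncard hsub ((Finset.finite_toSet _).image _)).trans ?_
      exact Set.ncard_image_le (Finset.finite_toSet _)
    have hcard' : (number {r : ℤ | ∃ a ∈ E, r = 2 * a} R : ℝ) ≤ R / 2 / Real.log (R / 2) ^ (A + 1) :=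
      le_trans (by exact_mod_cast hcard) h1
    refine hcard'.trans ?_
    have hlogL : Real.log R / 2 ≤ Real.log (R / 2) := by
      have e1 : Real.sqrt R ≤ R / 2 := by
        rw [Real.sqrt_le_left (by positivity)]
        nlinarith
      have e2 := Real.log_le_log (Real.sqrt_pos.2 hR0) e1
      rwa [Real.log_sqrt hR0.le] at e2
    have hlog : 1 ≤ Real.log R := log_ge_one (by linarith)
    have hl2 : 0 < Real.log (R / 2) := by linarith
    rw [div_div, div_le_div_iff₀ (by positivity) (by positivity)]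
    have e3 : Real.log R ^ A ≤ 2 * Real.log (R / 2) ^ (A + 1) := by
      have e4 : (Real.log R / 2) ^ (A + 1) ≤ Real.log (R / 2) ^ (A + 1) := pow_le_pow_left₀ (by positivity) hlogL _
      have e5 : Real.log R ^ A ≤ (Real.log R / 2) ^ (A + 1) := by
        rw [div_pow, le_div_iff₀ (by positivity), pow_succ (Real.log R) A]
        exact mul_le_mul_of_nonneg_left h2 (by positivity)
      have e6 : 0 ≤ Real.log (R / 2) ^ (A + 1) := by positivity
      linarith
    exact mul_le_mul_of_nonneg_left e3 hR0.le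
  · choose η hη using fun i => hecke (h i).1 (h i).2
    have hD : Dt W η Q := data (fun i => (h i).1) hQ (fun i => (h i).2) hη
    refine ⟨η, hη, fun e P ε A he hP hε => ?_⟩
    obtain ⟨r₁, h1⟩ := formula_odd (P := P) hD he hε A
    obtain ⟨r₂, h2⟩ := formula_even hD he ⟨hP.1, hP.2⟩ hU hε A
    refine ⟨max r₁ r₂, fun r hrE hr => ?_⟩
    rcases Int.emod_two_eq_zero_or_one r with hr2 | hr2
    · obtain ⟨a, rfl⟩ : ∃ a, r = 2 * a := ⟨r / 2, by omega⟩
      exact h2 a (fun ha => hrE ⟨a, ha, rfl⟩) ((le_max_right _ _).trans hr)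
    · exact h1 r hr2 ((le_max_left _ _).trans hr)

end Pool.Agent.Results.MP_d74fca_nt.GaussianMultiplication
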